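import Mathlib

set_option autoImplicit false

namespace Pool.Agent.H494R3

open scoped CStarAlgebra ComplexOrder

section
variable {A : Type*} [CStarAlgebra A]

/-- Close projections in a unital C*-algebra are unitarily equivalent. -/
theorem near_proj (P Q : A) (hP : P * P = P) (hPs : star P = P) (hQ : Q * Q = Q)
    (hQs : star Q = Q) (h : ‖P - Q‖ < 1) :
    ∃ u : A, star u * u = 1 ∧ u * star u = 1 ∧ u * P * star u = Q := by
  classical
  let _ : PartialOrder A := CStarAlgebra.spectralOrder A
  have _ : StarOrderedRing A := CStarAlgebra.spectralOrderedRing A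
  set z : A := Q * P + (1 - Q) * (1 - P) with hz
  have hP0 : (1 - P) * P = 0 := by rw [sub_mul, one_mul, hP, sub_self]
  have hQ0 : Q * (1 - Q) = 0 := by rw [mul_sub, mul_one, hQ, sub_self]
  have hzP : z * P = Q * P := by
    rw [hz, add_mul, mul_assoc Q P P, hP, mul_assoc (1 - Q), hP0, mul_zero, add_zero]
  have hQz : Q * z = Q * P := by
    rw [hz, mul_add, ← mul_assoc Q Q P, hQ, ← mul_assoc Q (1 - Q), hQ0, zero_mul, add_zero]
  have hzs : star z = P * Q + (1 - P) * (1 - Q) := by
    simp [hz, hPs, hQs]
  have hPQsq : ∀ a b : A, a * a = a → b * b = b →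
      (a * b + (1 - a) * (1 - b)) * (b * a + (1 - b) * (1 - a)) = 1 - (a - b) * (a - b) := by
    intro a b ha hb
    have e1 : (a * b + (1 - a) * (1 - b)) = 1 - a - b + a * b + a * b := by noncomm_ring
    have e2 : (b * a + (1 - b) * (1 - a)) = 1 - a - b + b * a + b * a := by noncomm_ring
    rw [e1, e2]
    have h1 : a * b * (b * a) = a * b * a := by
      rw [mul_assoc, ← mul_assoc b b a, hb, ← mul_assoc]
    have h2 : a * b * b = a * b := by rw [mul_assoc, hb]
    have h3 : b * (b * a) = b * a := by rw [← mul_assoc, hb]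
    have h4 : a * (b * a) = a * b * a := by rw [← mul_assoc]
    have h5 : (1 - a - b + a * b + a * b) * (1 - a - b + b * a + b * a)
       = 1 - a - b + b * a + b * a - a + a * a + a * b - a * (b * a) - a * (b * a)
         - b + b * a + b * b - b * (b * a) - b * (b * a) + (a * b - a * b * a - a * b * b
         + a * b * (b * a) + a * b * (b * a)) + (a * b - a * b * a - a * b * b
         + a * b * (b * a) + a * b * (b * a)) := by noncomm_ring
    rw [h5, h1, h2, h3, h4, ha, hb]
    have h6 : (a - b) * (a - b) = a * a - a * b - b * a + b * b := by noncomm_ring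
    rw [h6, ha, hb]
    abel
  have hzz : star z * z = 1 - (P - Q) * (P - Q) := by
    rw [hzs, hz]; exact hPQsq P Q hP hQ
  have hzz' : z * star z = 1 - (P - Q) * (P - Q) := by
    rw [hzs, hz]
    rw [hPQsq Q P hQ hP]
    noncomm_ring
  have hlt : ‖(P - Q) * (P - Q)‖ < 1 := by
    calc ‖(P - Q) * (P - Q)‖ ≤ ‖P - Q‖ * ‖P - Q‖ := norm_mul_le _ _
      _ < 1 * 1 := by
          apply mul_lt_mul'' h h (norm_nonneg _) (norm_nonneg _)
      _ = 1 := one_mul 1
  have hunit : IsUnit (1 - (P - Q) * (P - Q)) := isUnit_one_sub_of_norm_lt_one hlt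
  set y : A := star z * z with hy
  have hyunit : IsUnit y := by rw [hzz]; exact hunit
  have hy0 : 0 ≤ y := star_mul_self_nonneg z
  have hypos : IsStrictlyPositive y := ⟨hy0, hyunit⟩
  have hcomm : Commute y P := by
    show y * P = P * y
    rw [hzz]
    have : (P - Q) * (P - Q) * P = P * ((P - Q) * (P - Q)) := by
      have e1 : (P - Q) * (P - Q) * P = P * P * P - P * (Q * P) - Q * (P * P) + Q * Q * P := by
        noncomm_ring
      have e2 : P * ((P - Q) * (P - Q)) = P * P * P - P * P * Q - P * (Q * P) + P * (Q * Q) := by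
        noncomm_ring
      rw [e1, e2, hP, hQ, hP]
      abel
    rw [sub_mul 1 ((P - Q) * (P - Q)) P, mul_sub P 1, one_mul, mul_one, this]
  set s : A := y ^ (-(1/2 : ℝ)) with hs
  have hs0 : 0 ≤ s := CFC.rpow_nonneg
  have hsa : star s = s := (IsSelfAdjoint.of_nonneg hs0).star_eq
  have hsP : Commute s P := by
    rw [hs, CFC.rpow_def]
    exact Commute.cfc_nnreal (by exact hcomm) _
  have hsy : Commute s y := by
    rw [hs, CFC.rpow_def]
    exact Commute.cfc_nnreal (by exact Commute.refl y) _
  have hss : s * s = y ^ (-1 : ℝ) := by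
    rw [hs, ← CFC.rpow_add hyunit]
    norm_num
  have hssy : s * s * y = 1 := by
    rw [hss]
    have := CFC.rpow_neg_mul_rpow (a := y) 1 hypos
    rwa [CFC.rpow_one y hy0] at this
  have hyss : y * (s * s) = 1 := by
    rw [hss]
    have := CFC.rpow_mul_rpow_neg (a := y) 1 hypos
    rwa [CFC.rpow_one y hy0] at this
  -- z * s is unitary
  have hu1 : star (z * s) * (z * s) = 1 := by
    rw [star_mul, hsa]
    calc s * star z * (z * s) = s * (star z * z) * s := by noncomm_ring
      _ = s * y * s := by rw [hy]
      _ = y * s * s := by rw [hsy.eq]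
      _ = 1 := by rw [mul_assoc, hyss]
  have hzunit : IsUnit z := by
    have h1 : IsUnit (star z * z) := hyunit
    have h2 : IsUnit (z * star z) := by rw [hzz']; exact hunit
    obtain ⟨a, ha⟩ := h1.exists_left_inv
    obtain ⟨b, hb⟩ := h2.exists_right_inv
    rw [← mul_assoc] at ha
    rw [mul_assoc] at hb
    have hab := left_inv_eq_right_inv ha hb
    exact ⟨⟨z, a * star z, by rw [hab]; exact hb, ha⟩, rfl⟩
  have hu2 : (z * s) * star (z * s) = 1 := by
    rw [star_mul, hsa]
    have h3 : z * (s * s) * star z * z = z := by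
      calc z * (s * s) * star z * z = z * ((s * s) * (star z * z)) := by noncomm_ring
        _ = z * (s * s * y) := by rw [hy]
        _ = z := by rw [hssy, mul_one]
    have h4 : z * s * (s * star z) = z * (s * s) * star z := by noncomm_ring
    rw [h4]
    have h5 : (z * (s * s) * star z) * z = 1 * z := by rw [h3, one_mul]
    exact hzunit.mul_right_cancel h5
  refine ⟨z * s, hu1, hu2, ?_⟩
  calc z * s * P * star (z * s) = z * (s * P) * star (z * s) := by noncomm_ring
    _ = z * (P * s) * star (z * s) := by rw [hsP.eq]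
    _ = (z * P) * s * star (z * s) := by noncomm_ring
    _ = (Q * z) * s * star (z * s) := by rw [hzP, hQz]
    _ = Q * ((z * s) * star (z * s)) := by noncomm_ring
    _ = Q := by rw [hu2, mul_one]

end

end Pool.Agent.H494R3
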