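import Mathlib
import Pool.Agent.H494R3.NearProj

set_option autoImplicit false
set_option linter.style.haveILetI false

namespace Pool.Agent.H494R3

open scoped CStarAlgebra ComplexOrder unitInterval

section
variable {A : Type*} [CStarAlgebra A]

/-- A norm-continuous path of projections has unitarily equivalent ends. -/
theorem path_proj (θ : I → A) (hθ : Continuous θ) (h1 : ∀ s, θ s * θ s = θ s)
    (h2 : ∀ s, star (θ s) = θ s) :
    ∃ u : A, star u * u = 1 ∧ u * star u = 1 ∧ u * θ 0 * star u = θ 1 := by
  classical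
  set S : Set I := {s | ∃ u : A, star u * u = 1 ∧ u * star u = 1 ∧ u * θ 0 * star u = θ s} with hS
  have step : ∀ s s' : I, ‖θ s - θ s'‖ < 1 → s ∈ S → s' ∈ S := by
    rintro s s' hlt ⟨u, hu1, hu2, hu3⟩
    obtain ⟨v, hv1, hv2, hv3⟩ := near_proj (θ s) (θ s') (h1 s) (h2 s) (h1 s') (h2 s') hlt
    refine ⟨v * u, ?_, ?_, ?_⟩
    · rw [star_mul, mul_assoc, ← mul_assoc (star v), hv1, one_mul, hu1]
    · rw [star_mul, mul_assoc, ← mul_assoc u, hu2, one_mul, hv2]
    · rw [star_mul]
      calc v * u * θ 0 * (star u * star v) = v * (u * θ 0 * star u) * star v := by noncomm_ring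
        _ = θ s' := by rw [hu3, hv3]
  have near : ∀ s : I, ∀ᶠ s' in nhds s, ‖θ s - θ s'‖ < 1 := by
    intro s
    have : Filter.Tendsto (fun s' => ‖θ s - θ s'‖) (nhds s) (nhds ‖θ s - θ s‖) :=
      ((continuous_const.sub hθ).norm).continuousAt
    rw [sub_self, norm_zero] at this
    exact this.eventually (gt_mem_nhds one_pos)
  have hopen : IsOpen S := by
    rw [isOpen_iff_mem_nhds]
    intro s hs
    filter_upwards [near s] with s' hs' using step s s' hs' hs
  have hclosed : IsClosed S := by
    rw [← isOpen_compl_iff, isOpen_iff_mem_nhds]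
    intro s hs
    filter_upwards [near s] with s' hs' hmem
    exact hs (step s' s (by rwa [norm_sub_rev]) hmem)
  have hne : (0 : I) ∈ S := ⟨1, by simp, by simp, by simp⟩
  have huniv : S = Set.univ := IsClopen.eq_univ ⟨hclosed, hopen⟩ ⟨0, hne⟩
  have : (1 : I) ∈ S := by rw [huniv]; trivial
  exact this

end

section
variable {B : Type*} [CStarAlgebra B]

/-- evaluation of matrices over `C(I,B)` at a point -/
def evM {m n : Type*} (t : I) (M : Matrix m n C(I, B)) : Matrix m n B := M.map (fun f => f t)

/-- constant matrices over `C(I,B)` -/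
def cM {m n : Type*} (M : Matrix m n B) : Matrix m n C(I, B) := M.map (fun b => ContinuousMap.const I b)

@[simp] lemma evM_cM {m n : Type*} (t : I) (M : Matrix m n B) : evM t (cM M) = M := by
  ext i j; simp [evM, cM]

lemma evM_ext {m n : Type*} {M N : Matrix m n C(I, B)} (h : ∀ t, evM t M = evM t N) : M = N := by
  ext i j t
  have := congrFun (congrFun (h t) i) j
  simpa [evM] using this

@[simp] lemma evM_mul {l m n : Type*} [Fintype m] (t : I) (M : Matrix l m C(I, B))
    (N : Matrix m n C(I, B)) : evM t (M * N) = evM t M * evM t N := by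
  ext i j; simp [evM, Matrix.mul_apply, ContinuousMap.sum_apply]

@[simp] lemma evM_conjTranspose {m n : Type*} (t : I) (M : Matrix m n C(I, B)) :
    evM t M.conjTranspose = (evM t M).conjTranspose := by
  ext i j; simp [evM]

@[simp] lemma evM_one {n : Type*} [DecidableEq n] (t : I) :
    evM t (1 : Matrix n n C(I, B)) = 1 := by
  ext i j
  by_cases h : i = j
  · subst h; simp [evM]
  · simp [evM, h]

lemma cM_mul {l m n : Type*} [Fintype m] (M : Matrix l m B)
    (N : Matrix m n B) : cM (M * N) = cM M * cM N := by
  apply evM_ext; intro t; simp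

lemma cM_conjTranspose {m n : Type*} (M : Matrix m n B) :
    cM M.conjTranspose = (cM M).conjTranspose := by
  apply evM_ext; intro t; simp

lemma cM_one {n : Type*} [DecidableEq n] : cM (1 : Matrix n n B) = 1 := by
  apply evM_ext; intro t; simp

/-- Projections over `C(I,B)` are conjugate to constants. -/
theorem homot {k : ℕ} (p : Matrix (Fin k) (Fin k) C(I, B)) (hp : p * p = p)
    (hps : p.conjTranspose = p) :
    ∃ w : Matrix (Fin k) (Fin k) C(I, B), w.conjTranspose * w = 1 ∧ w * w.conjTranspose = 1 ∧
      evM 0 w = 1 ∧ w * cM (evM 0 p) * w.conjTranspose = p := by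
  classical
  letI : PartialOrder C(I, B) := CStarAlgebra.spectralOrder _
  haveI : StarOrderedRing C(I, B) := CStarAlgebra.spectralOrderedRing _
  -- the path of projections
  let ms : I → C(I, I) := fun s => ⟨fun t => s * t, by fun_prop⟩
  let θ : I → CStarMatrix (Fin k) (Fin k) C(I, B) :=
    fun s => CStarMatrix.ofMatrix (p.map (fun f => f.comp (ms s)))
  have hθc : Continuous θ := by
    have : Continuous (fun s => (p.map (fun f => f.comp (ms s)) : Matrix (Fin k) (Fin k) C(I, B))) := by
      apply continuous_matrix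
      intro i j
      let F : C(I × I, B) := ⟨fun x => p i j (x.1 * x.2), by fun_prop⟩
      have h : (fun s => (p.map (fun f => f.comp (ms s))) i j) = fun s => F.curry s := by
        funext s
        ext t
        simp [F, ms]
      rw [h]
      exact F.curry.continuous
    exact this
  have ev : ∀ s t, evM t (p.map (fun f => f.comp (ms s))) = evM (s * t) p := by
    intro s t
    ext i j
    simp [evM, ms]
  have hθ1 : ∀ s, θ s * θ s = θ s := by
    intro s
    show (CStarMatrix.ofMatrix (p.map (fun f => f.comp (ms s)) * p.map (fun f => f.comp (ms s)))) = _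
    congr 1
    apply evM_ext
    intro t
    rw [evM_mul, ev, ← evM_mul, hp]
  have hθ2 : ∀ s, star (θ s) = θ s := by
    intro s
    show (CStarMatrix.ofMatrix ((p.map (fun f => f.comp (ms s))).conjTranspose)) = _
    congr 1
    apply evM_ext
    intro t
    rw [evM_conjTranspose, ev, ← evM_conjTranspose, hps]
  obtain ⟨u, hu1, hu2, hu3⟩ := path_proj θ hθc hθ1 hθ2
  let u' : Matrix (Fin k) (Fin k) C(I, B) := CStarMatrix.ofMatrix.symm u
  have hu1' : u'.conjTranspose * u' = 1 := hu1
  have hu2' : u' * u'.conjTranspose = 1 := hu2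
  have hθ0 : (p.map (fun f => f.comp (ms 0))) = cM (evM 0 p) := by
    apply evM_ext
    intro t
    rw [ev, zero_mul, evM_cM]
  have hθ1' : (p.map (fun f => f.comp (ms 1))) = p := by
    apply evM_ext
    intro t
    rw [ev, one_mul]
  have hu3' : u' * cM (evM 0 p) * u'.conjTranspose = p := by
    have h3 : u' * (p.map (fun f => f.comp (ms 0))) * u'.conjTranspose
      = (p.map (fun f => f.comp (ms 1))) := hu3
    rwa [hθ0, hθ1'] at h3
  set a : Matrix (Fin k) (Fin k) B := evM 0 u' with ha
  have ha1 : a.conjTranspose * a = 1 := by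
    rw [ha, ← evM_conjTranspose, ← evM_mul, hu1', evM_one]
  have ha2 : a * a.conjTranspose = 1 := by
    rw [ha, ← evM_conjTranspose, ← evM_mul, hu2', evM_one]
  have ha3 : a * evM 0 p * a.conjTranspose = evM 0 p := by
    have := congrArg (evM 0) hu3'
    rwa [evM_mul, evM_mul, evM_cM, evM_conjTranspose] at this
  have ha4 : a.conjTranspose * evM 0 p * a = evM 0 p := by
    calc a.conjTranspose * evM 0 p * a
        = a.conjTranspose * (a * evM 0 p * a.conjTranspose) * a := by rw [ha3]
      _ = (a.conjTranspose * a) * evM 0 p * (a.conjTranspose * a) := by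
          simp only [Matrix.mul_assoc]
      _ = evM 0 p := by rw [ha1, Matrix.one_mul, Matrix.mul_one]
  refine ⟨u' * cM a.conjTranspose, ?_, ?_, ?_, ?_⟩
  · rw [Matrix.conjTranspose_mul, ← cM_conjTranspose, Matrix.conjTranspose_conjTranspose]
    calc cM a * u'.conjTranspose * (u' * cM a.conjTranspose)
        = cM a * (u'.conjTranspose * u') * cM a.conjTranspose := by simp only [Matrix.mul_assoc]
      _ = 1 := by rw [hu1', Matrix.mul_one, ← cM_mul, ha2, cM_one]
  · rw [Matrix.conjTranspose_mul, ← cM_conjTranspose, Matrix.conjTranspose_conjTranspose]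
    calc u' * cM a.conjTranspose * (cM a * u'.conjTranspose)
        = u' * (cM a.conjTranspose * cM a) * u'.conjTranspose := by simp only [Matrix.mul_assoc]
      _ = 1 := by rw [← cM_mul, ha1, cM_one, Matrix.mul_one, hu2']
  · rw [evM_mul, evM_cM, ← ha, ha2]
  · rw [Matrix.conjTranspose_mul, ← cM_conjTranspose, Matrix.conjTranspose_conjTranspose]
    calc u' * cM a.conjTranspose * cM (evM 0 p) * (cM a * u'.conjTranspose)
        = u' * (cM a.conjTranspose * cM (evM 0 p) * cM a) * u'.conjTranspose := by
          simp only [Matrix.mul_assoc]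
      _ = u' * cM (evM 0 p) * u'.conjTranspose := by rw [← cM_mul, ← cM_mul, ha4]
      _ = p := hu3'

end

end Pool.Agent.H494R3
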