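import Mathlib

set_option autoImplicit false
set_option linter.style.haveILetI false

namespace Pool.Agent.H494R3

open InnerProductSpace

/-- the Hilbert space `ℓ²(ℕ)` -/
abbrev HH : Type := lp (fun _ : ℕ => ℂ) 2

/-- bounded operators on `ℓ²(ℕ)` -/
abbrev BB : Type := HH →L[ℂ] HH

/-- compact operators (with compact adjoint) -/
def IsK (T : BB) : Prop := IsCompactOperator T ∧ IsCompactOperator (star T : BB)

lemma IsK.add {S T : BB} (hS : IsK S) (hT : IsK T) : IsK (S + T) := by
  refine ⟨hS.1.add hT.1, ?_⟩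
  rw [star_add]
  exact hS.2.add hT.2

lemma IsK.zero : IsK 0 := by
  refine ⟨isCompactOperator_zero, ?_⟩
  rw [star_zero]
  exact isCompactOperator_zero

lemma IsK.smul (c : ℂ) {T : BB} (hT : IsK T) : IsK (c • T) := by
  refine ⟨hT.1.smul c, ?_⟩
  rw [star_smul]
  exact hT.2.smul (star c)

lemma IsK.star {T : BB} (hT : IsK T) : IsK (star T) := by
  refine ⟨hT.2, ?_⟩
  rw [star_star]
  exact hT.1

lemma IsK.mul_left (S : BB) {T : BB} (hT : IsK T) : IsK (S * T) := by
  refine ⟨hT.1.clm_comp S, ?_⟩
  rw [star_mul]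
  exact hT.2.comp_clm (Star.star S)

lemma IsK.mul_right (S : BB) {T : BB} (hT : IsK T) : IsK (T * S) := by
  refine ⟨hT.1.comp_clm S, ?_⟩
  rw [star_mul]
  exact hT.2.clm_comp (Star.star S)

lemma IsK.sum {ι : Type*} (s : Finset ι) (f : ι → BB) (h : ∀ i ∈ s, IsK (f i)) :
    IsK (∑ i ∈ s, f i) := by
  classical
  induction s using Finset.induction_on with
  | empty => simpa using IsK.zero
  | insert a s ha ih =>
    rw [Finset.sum_insert ha]
    exact (h a (Finset.mem_insert_self a s)).add (ih (fun i hi => h i (Finset.mem_insert_of_mem hi)))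

lemma isClosed_isK : IsClosed {T : BB | IsK T} := by
  have h1 : IsClosed {T : BB | IsCompactOperator T} := isClosed_setOfPred_isCompactOperator
  have h2 : IsClosed ((fun T : BB => (star T : BB)) ⁻¹' {T : BB | IsCompactOperator T}) :=
    h1.preimage continuous_star
  exact h1.inter h2

lemma isK_rankOne (x y : HH) : IsK (rankOne ℂ x y) := by
  have h : ∀ x y : HH, IsCompactOperator (rankOne ℂ x y : BB) := by
    intro x y
    have h1 : IsCompactOperator (ContinuousLinearMap.toSpanSingleton ℂ x : ℂ →L[ℂ] HH) :=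
      isCompactOperator_of_locallyCompactSpace_rng (ContinuousLinearMap.toSpanSingleton ℂ x)
    rw [rankOne_def']
    exact h1.comp_clm (innerSL ℂ y)
  refine ⟨h x y, ?_⟩
  have : (star (rankOne ℂ x y : BB) : BB) = rankOne ℂ y x := by
    rw [ContinuousLinearMap.star_eq_adjoint, adjoint_rankOne]
  rw [this]
  exact h y x

/-- the basis vectors -/
noncomputable def ee (n : ℕ) : HH := lp.single 2 n (1 : ℂ)

lemma ee_inner (m n : ℕ) : inner ℂ (ee m) (ee n) = if m = n then (1 : ℂ) else 0 := by
  rw [ee, ee, lp.inner_single_left]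
  by_cases h : m = n
  · subst h; simp [lp.single_apply]
  · simp [lp.single_apply, h]

lemma ee_orthonormal {f : ℕ → ℕ} (hf : Function.Injective f) :
    Orthonormal ℂ (fun n => ee (f n)) := by
  rw [orthonormal_iff_ite]
  intro i j
  rw [ee_inner]
  by_cases h : i = j
  · subst h; simp
  · have : f i ≠ f j := fun h2 => h (hf h2)
    simp [h, this]

lemma ee_norm (n : ℕ) : ‖ee n‖ = 1 :=
  (ee_orthonormal (f := id) Function.injective_id).1 n

/-- the rank one projection -/
noncomputable def e0 : BB := rankOne ℂ (ee 0) (ee 0)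

lemma isK_e0 : IsK e0 := isK_rankOne _ _

lemma e0_mul : e0 * e0 = e0 := by
  ext1 x
  simp [e0, ee_norm]

lemma e0_star : star e0 = e0 := by
  rw [e0, ContinuousLinearMap.star_eq_adjoint, adjoint_rankOne]

lemma e0_corner (T : BB) : e0 * T * e0 = (inner ℂ (ee 0) (T (ee 0)) : ℂ) • e0 := by
  ext1 x
  simp [e0, smul_smul, mul_comm]

lemma e0_ne : e0 ≠ 0 := by
  intro h
  have h1 : e0 (ee 0) = ee 0 := by simp [e0, ee_norm]
  rw [h] at h1
  have h2 := ee_inner 0 0
  rw [← h1] at h2
  simp at h2

/-- isometries with pairwise orthogonal ranges -/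
noncomputable def ww (c : ℕ) : BB :=
  ((ee_orthonormal (f := fun n => Nat.pair c n)
    (fun _ _ h => (Nat.pair_eq_pair.mp h).2)).orthogonalFamily.linearIsometry).toContinuousLinearMap

lemma ww_ee (c n : ℕ) : ww c (ee n) = ee (Nat.pair c n) := by
  have := (ee_orthonormal (f := fun n => Nat.pair c n)
    (fun _ _ h => (Nat.pair_eq_pair.mp h).2)).orthogonalFamily.linearIsometry_apply_single
      (i := n) (1 : ℂ)
  simp only [ww, ee]
  simp

lemma ee_dense : ∀ T : BB, (∀ m n, inner ℂ (ee m) (T (ee n)) = (0 : ℂ)) → T = 0 := by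
  intro T hT
  have h1 : ∀ x : HH, (∀ m, inner ℂ (ee m) x = (0 : ℂ)) → x = 0 := by
    intro x hx
    ext m
    have := hx m
    rw [ee, lp.inner_single_left] at this
    simpa using this
  have h2 : ∀ n, T (ee n) = 0 := fun n => h1 _ (fun m => hT m n)
  have h3 : ∀ n, (star T : BB) (ee n) = 0 → True := fun _ _ => trivial
  -- use the adjoint
  have h4 : ∀ y : HH, (star T : BB) y = 0 := by
    intro y
    apply h1
    intro m
    rw [ContinuousLinearMap.star_eq_adjoint, ContinuousLinearMap.adjoint_inner_right, h2 m,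
      inner_zero_left]
  have h5 : (star T : BB) = 0 := by
    ext1 y; exact h4 y
  have h6 : star (star T : BB) = (0 : BB) := by rw [h5, star_zero]
  rwa [star_star] at h6

lemma ww_star_mul (c d : ℕ) : star (ww c) * ww d = if c = d then 1 else 0 := by
  have key : star (ww c) * ww d - (if c = d then 1 else 0) = 0 := by
    apply ee_dense
    intro m n
    have h1 : ((star (ww c) * ww d : BB) (ee n)) = (star (ww c) : BB) (ww d (ee n)) := rfl
    rw [sub_apply, inner_sub_right, h1, ContinuousLinearMap.star_eq_adjoint,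
      ContinuousLinearMap.adjoint_inner_right, ww_ee, ww_ee, ee_inner]
    by_cases h : c = d
    · subst h
      simp [ee_inner, Nat.pair_eq_pair]
    · simp [h, Nat.pair_eq_pair]
  exact sub_eq_zero.mp key

end Pool.Agent.H494R3
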