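import Mathlib
import Pool.Agent.H494R3.Cpt

set_option autoImplicit false
set_option linter.style.haveILetI false

namespace Pool.Agent.H494R3

open InnerProductSpace

/-- The diagonal matrix with all entries the rank one projection. -/
noncomputable def EE (ι : Type*) [DecidableEq ι] : Matrix ι ι BB := Matrix.diagonal (fun _ => e0)

/-- every projection over the compacts is equivalent to a standard one -/
theorem exists_std {k : ℕ} (P : Matrix (Fin k) (Fin k) BB) (hP : P * P = P)
    (hPs : P.conjTranspose = P) (hK : ∀ i j, IsK (P i j)) :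
    ∃ (r : ℕ) (v : Matrix (Fin r) (Fin k) BB), v.conjTranspose * v = P ∧
      v * v.conjTranspose = EE (Fin r) := by
  classical
  let E := PiLp 2 (fun _ : Fin k => HH)
  let ι : Fin k → (HH →L[ℂ] E) := fun a =>
    ((PiLp.continuousLinearEquiv 2 ℂ (fun _ : Fin k => HH)).symm :
      (∀ _ : Fin k, HH) →L[ℂ] E) ∘L (ContinuousLinearMap.single ℂ (fun _ : Fin k => HH) a)
  let π : Fin k → (E →L[ℂ] HH) := fun b => PiLp.proj 2 (fun _ : Fin k => HH) b
  let T : E →L[ℂ] E := ∑ a, ∑ b, (ι a) ∘L (P a b) ∘L (π b)
  have hιapp : ∀ (a c : Fin k) (x : HH), (ι a x) c = if c = a then x else 0 := by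
    intro a c x
    simp [ι]
  have hTapp : ∀ (ξ : E) (a : Fin k), (T ξ) a = ∑ b, P a b (ξ b) := by
    intro ξ a
    have : (T ξ) = ∑ a, ∑ b, ι a (P a b (π b ξ)) := by
      simp [T]
    rw [this]
    have h2 : ((∑ a, ∑ b, ι a (P a b (π b ξ)) : E)) a = ∑ a', ∑ b, (ι a' (P a' b (π b ξ))) a := by
      show π a (∑ a, ∑ b, ι a (P a b (π b ξ)) : E) = _
      rw [map_sum]
      apply Finset.sum_congr rfl
      intro a' _
      rw [map_sum]
      rfl
    rw [h2]
    simp only [hιapp]
    rw [Finset.sum_eq_single a]
    · simp only [if_true]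
      rfl
    · intro c _ hc
      simp [Ne.symm hc]
    · simp
  have hTc : IsCompactOperator T := by
    have : T ∈ compactOperator (RingHom.id ℂ) E E := by
      apply Submodule.sum_mem
      intro a _
      apply Submodule.sum_mem
      intro b _
      have h1 : IsCompactOperator (P a b) := (hK a b).1
      exact (h1.comp_clm (π b)).clm_comp (ι a)
    exact this
  -- composition
  have hTT : ∀ ξ : E, T (T ξ) = T ξ := by
    intro ξ
    ext1 a
    rw [hTapp, hTapp]
    have h1 : ∀ b, P a b ((T ξ) b) = ∑ c, (P a b * P b c) (ξ c) := by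
      intro b
      rw [hTapp, map_sum]
      rfl
    simp only [h1]
    rw [Finset.sum_comm]
    apply Finset.sum_congr rfl
    intro c _
    have h2 : P a c = ∑ b, P a b * P b c := by
      conv_lhs => rw [← hP]
      rw [Matrix.mul_apply]
    rw [h2]
    simp
  have hTsym : ∀ ξ η : E, inner ℂ (T ξ) η = inner ℂ ξ (T η) := by
    intro ξ η
    rw [PiLp.inner_apply, PiLp.inner_apply]
    simp only [hTapp, sum_inner, inner_sum]
    rw [Finset.sum_comm]
    apply Finset.sum_congr rfl
    intro a _
    apply Finset.sum_congr rfl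
    intro b _
    have h2 : P b a = star (P a b) := by
      conv_lhs => rw [← hPs]
      rw [Matrix.conjTranspose_apply]
    rw [h2, ContinuousLinearMap.star_eq_adjoint, ContinuousLinearMap.adjoint_inner_left]
  let R : Submodule ℂ E := Module.End.eigenspace T.toLinearMap 1
  haveI : FiniteDimensional ℂ R := ContinuousLinearMap.finite_dimensional_eigenspace hTc 1 one_ne_zero
  have hTR : ∀ ξ : E, T ξ ∈ R := by
    intro ξ
    rw [Module.End.mem_eigenspace_iff, one_smul]
    exact hTT ξ
  let bb := stdOrthonormalBasis ℂ R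
  set r := Module.finrank ℂ R with hr
  have hb : ∀ i, T (bb i : E) = (bb i : E) := by
    intro i
    have := (bb i).2
    rw [Module.End.mem_eigenspace_iff, one_smul] at this
    exact this
  -- expansion of T ξ
  have hexp : ∀ ξ : E, T ξ = ∑ i, (inner ℂ (bb i : E) ξ : ℂ) • (bb i : E) := by
    intro ξ
    have h1 := bb.sum_repr' (⟨T ξ, hTR ξ⟩ : R)
    have h2 := congrArg (fun x : R => (x : E)) h1
    simp only [Submodule.coe_sum, Submodule.coe_smul, Submodule.coe_inner] at h2
    rw [← h2]
    apply Finset.sum_congr rfl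
    intro i _
    rw [← hTsym, hb]
  refine ⟨r, Matrix.of fun i a => rankOne ℂ (ee 0) ((bb i : E) a), ?_, ?_⟩
  · ext a b x
    have h1 : ((Matrix.of fun i a => (rankOne ℂ (ee 0) ((bb i : E) a) : BB)).conjTranspose *
        (Matrix.of fun i a => (rankOne ℂ (ee 0) ((bb i : E) a) : BB))) a b
        = ∑ i, (rankOne ℂ ((bb i : E) a) ((bb i : E) b) : BB) := by
      rw [Matrix.mul_apply]
      apply Finset.sum_congr rfl
      intro i _
      rw [Matrix.conjTranspose_apply, Matrix.of_apply, Matrix.of_apply,
        ContinuousLinearMap.star_eq_adjoint, adjoint_rankOne]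
      ext1 y
      simp [ee_norm]
    rw [h1]
    have h2 := congrArg (fun η : E => η a) (hexp (ι b x))
    simp only at h2
    rw [hTapp] at h2
    simp only [hιapp] at h2
    have h3 : ∑ b_1, (P a b_1) (if b_1 = b then x else 0) = P a b x := by
      rw [Finset.sum_eq_single b]
      · simp
      · intro c _ hc
        simp [hc]
      · simp
    rw [h3] at h2
    rw [h2]
    have h4 : ((∑ i, (inner ℂ (bb i : E) (ι b x) : ℂ) • (bb i : E) : E)) a
        = ∑ i, (inner ℂ (bb i : E) (ι b x) : ℂ) • (bb i : E) a := by
      show π a (∑ i, (inner ℂ (bb i : E) (ι b x) : ℂ) • (bb i : E) : E) = _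
      rw [map_sum]
      apply Finset.sum_congr rfl
      intro a' _
      rw [map_smul]
      rfl
    rw [h4]
    have h5 : ∀ i, (inner ℂ (bb i : E) (ι b x) : ℂ) = inner ℂ ((bb i : E) b) x := by
      intro i
      rw [PiLp.inner_apply]
      simp only [hιapp]
      rw [Finset.sum_eq_single b]
      · simp
      · intro c _ hc
        simp [hc]
      · simp
    simp only [h5]
    simp
  · ext i j : 2
    rw [Matrix.mul_apply]
    have h1 : ∀ a, (Matrix.of fun i a => (rankOne ℂ (ee 0) ((bb i : E) a) : BB)) i a *
        (Matrix.of fun i a => (rankOne ℂ (ee 0) ((bb i : E) a) : BB)).conjTranspose a j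
        = (inner ℂ ((bb i : E) a) ((bb j : E) a) : ℂ) • e0 := by
      intro a
      rw [Matrix.conjTranspose_apply, Matrix.of_apply, Matrix.of_apply,
        ContinuousLinearMap.star_eq_adjoint, adjoint_rankOne]
      ext1 y
      simp [e0, smul_smul, mul_comm]
    rw [Finset.sum_congr rfl (fun a _ => h1 a), ← Finset.sum_smul]
    have h2 : ∑ a, (inner ℂ ((bb i : E) a) ((bb j : E) a) : ℂ) = if i = j then 1 else 0 := by
      have h3 := (orthonormal_iff_ite.mp bb.orthonormal) i j
      rw [Submodule.coe_inner, PiLp.inner_apply] at h3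
      exact h3
    rw [h2, EE, Matrix.diagonal_apply]
    split_ifs <;> simp

/-- standard projections of different ranks are inequivalent -/
theorem std_card {ι κ : Type} [Fintype ι] [DecidableEq ι] [Fintype κ] [DecidableEq κ]
    (v : Matrix κ ι BB) (h1 : v.conjTranspose * v = EE ι) (h2 : v * v.conjTranspose = EE κ) :
    Fintype.card ι = Fintype.card κ := by
  classical
  have hEE : ∀ (σ : Type) [Fintype σ] [DecidableEq σ], EE σ * EE σ = EE σ := by
    intro σ _ _
    rw [EE, Matrix.diagonal_mul_diagonal]
    simp [e0_mul]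
  -- corner matrix
  let L : Matrix κ ι ℂ := Matrix.of fun i j => (inner ℂ (ee 0) (v i j (ee 0)) : ℂ)
  let w : Matrix κ ι BB := EE κ * v * EE ι
  have hw : w = L.map (fun c => c • e0) := by
    apply Matrix.ext
    intro i j
    simp only [w, EE, Matrix.mul_diagonal, Matrix.diagonal_mul, Matrix.map_apply, L, Matrix.of_apply]
    exact e0_corner _
  have hv : w.conjTranspose * w = EE ι := by
    have h3 : v * EE ι = EE κ * v := by
      rw [← h1, ← h2, Matrix.mul_assoc]
    have h4 : w = v * EE ι := by
      show EE κ * v * EE ι = _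
      rw [← h3, Matrix.mul_assoc, hEE]
    have hs : (EE ι).conjTranspose = EE ι := by
      rw [EE, Matrix.diagonal_conjTranspose]
      congr 1
      funext i
      exact e0_star
    rw [h4, Matrix.conjTranspose_mul, hs]
    calc EE ι * v.conjTranspose * (v * EE ι) = EE ι * (v.conjTranspose * v) * EE ι := by
          simp only [Matrix.mul_assoc]
      _ = EE ι := by rw [h1, hEE, hEE]
  have hv2 : w * w.conjTranspose = EE κ := by
    have h3 : v * EE ι = EE κ * v := by
      rw [← h1, ← h2, Matrix.mul_assoc]
    have h4 : w = EE κ * v := by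
      show EE κ * v * EE ι = _
      rw [Matrix.mul_assoc, h3, ← Matrix.mul_assoc, hEE]
    have hs : (EE κ).conjTranspose = EE κ := by
      rw [EE, Matrix.diagonal_conjTranspose]
      congr 1
      funext i
      exact e0_star
    rw [h4, Matrix.conjTranspose_mul, hs]
    calc EE κ * v * (v.conjTranspose * EE κ) = EE κ * (v * v.conjTranspose) * EE κ := by
          simp only [Matrix.mul_assoc]
      _ = EE κ := by rw [h2, hEE, hEE]
  have inj : ∀ c d : ℂ, c • e0 = d • e0 → c = d := by
    intro c d h
    have : (c - d) • e0 = 0 := by rw [sub_smul, h, sub_self]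
    rcases smul_eq_zero.mp this with h | h
    · exact sub_eq_zero.mp h
    · exact absurd h e0_ne
  have hL1 : L.conjTranspose * L = 1 := by
    ext i j
    apply inj
    have := congrFun (congrFun hv i) j
    rw [hw, Matrix.mul_apply] at this
    rw [Matrix.mul_apply, Finset.sum_smul]
    have h5 : (1 : Matrix ι ι ℂ) i j • e0 = EE ι i j := by
      rw [EE, Matrix.diagonal_apply, Matrix.one_apply]
      split_ifs <;> simp
    rw [h5, ← this]
    apply Finset.sum_congr rfl
    intro a _
    rw [Matrix.conjTranspose_apply, Matrix.conjTranspose_apply, Matrix.map_apply, Matrix.map_apply,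
      star_smul, e0_star, smul_mul_smul_comm, e0_mul]
  have hL2 : L * L.conjTranspose = 1 := by
    ext i j
    apply inj
    have := congrFun (congrFun hv2 i) j
    rw [hw, Matrix.mul_apply] at this
    rw [Matrix.mul_apply, Finset.sum_smul]
    have h5 : (1 : Matrix κ κ ℂ) i j • e0 = EE κ i j := by
      rw [EE, Matrix.diagonal_apply, Matrix.one_apply]
      split_ifs <;> simp
    rw [h5, ← this]
    apply Finset.sum_congr rfl
    intro a _
    rw [Matrix.conjTranspose_apply, Matrix.conjTranspose_apply, Matrix.map_apply, Matrix.map_apply,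
      star_smul, e0_star, smul_mul_smul_comm, e0_mul]
  have h6 := Matrix.rank_mul_le_left L.conjTranspose L
  have h7 := Matrix.rank_mul_le_left L L.conjTranspose
  rw [hL1, Matrix.rank_one] at h6
  rw [hL2, Matrix.rank_one] at h7
  have h8 := Matrix.rank_le_card_width L.conjTranspose
  have h9 := Matrix.rank_le_card_width L
  omega

end Pool.Agent.H494R3
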