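import Mathlib
import Pool.Agent.H494R3.Rank

set_option autoImplicit false
set_option linter.style.haveILetI false

namespace Pool.Agent.H494R3

open InnerProductSpace Matrix

/-- Murray-von Neumann equivalence of matrices over operators -/
def MvN {ι κ : Type} [Fintype ι] [Fintype κ] (P : Matrix ι ι BB) (Q : Matrix κ κ BB) : Prop :=
  ∃ v : Matrix κ ι BB, v.conjTranspose * v = P ∧ v * v.conjTranspose = Q

/-- projections with compact entries -/
def KProj {ι : Type} [Fintype ι] (P : Matrix ι ι BB) : Prop :=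
  P * P = P ∧ P.conjTranspose = P ∧ ∀ i j, IsK (P i j)

lemma MvN.symm {ι κ : Type} [Fintype ι] [Fintype κ] {P : Matrix ι ι BB} {Q : Matrix κ κ BB}
    (h : MvN P Q) : MvN Q P := by
  obtain ⟨v, h1, h2⟩ := h
  exact ⟨v.conjTranspose, by rw [conjTranspose_conjTranspose, h2],
    by rw [conjTranspose_conjTranspose, h1]⟩

lemma MvN.trans {ι κ σ : Type} [Fintype ι] [Fintype κ] [Fintype σ]
    {P : Matrix ι ι BB} {Q : Matrix κ κ BB} {S : Matrix σ σ BB}
    (h : MvN P Q) (h' : MvN Q S) (hP : P * P = P) (hS : S * S = S) : MvN P S := by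
  obtain ⟨v, h1, h2⟩ := h
  obtain ⟨w, h3, h4⟩ := h'
  refine ⟨w * v, ?_, ?_⟩
  · rw [conjTranspose_mul]
    calc v.conjTranspose * w.conjTranspose * (w * v)
        = v.conjTranspose * (w.conjTranspose * w) * v := by simp only [Matrix.mul_assoc]
      _ = v.conjTranspose * (v * v.conjTranspose) * v := by rw [h3, h2]
      _ = (v.conjTranspose * v) * (v.conjTranspose * v) := by simp only [Matrix.mul_assoc]
      _ = P := by rw [h1, hP]
  · rw [conjTranspose_mul]
    calc w * v * (v.conjTranspose * w.conjTranspose)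
        = w * (v * v.conjTranspose) * w.conjTranspose := by simp only [Matrix.mul_assoc]
      _ = w * (w.conjTranspose * w) * w.conjTranspose := by rw [h3, h2]
      _ = (w * w.conjTranspose) * (w * w.conjTranspose) := by simp only [Matrix.mul_assoc]
      _ = S := by rw [h4, hS]

/-- normalised implementing partial isometry -/
lemma MvN.norm {ι κ : Type} [Fintype ι] [Fintype κ]
    {P : Matrix ι ι BB} {Q : Matrix κ κ BB} (h : MvN P Q) (hP : P * P = P)
    (hPs : P.conjTranspose = P) (hQ : Q * Q = Q) :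
    ∃ v : Matrix κ ι BB, v.conjTranspose * v = P ∧ v * v.conjTranspose = Q ∧ v * P = v ∧
      ((∀ i j, IsK (P i j)) → ∀ i j, IsK (v i j)) := by
  obtain ⟨v, h1, h2⟩ := h
  refine ⟨v * P, ?_, ?_, ?_, ?_⟩
  · rw [conjTranspose_mul, hPs]
    calc P * v.conjTranspose * (v * P) = P * (v.conjTranspose * v) * P := by
          simp only [Matrix.mul_assoc]
      _ = P := by rw [h1, hP, hP]
  · rw [conjTranspose_mul, hPs]
    calc v * P * (P * v.conjTranspose) = v * (P * P) * v.conjTranspose := by
          simp only [Matrix.mul_assoc]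
      _ = v * (v.conjTranspose * v) * v.conjTranspose := by rw [hP, h1]
      _ = (v * v.conjTranspose) * (v * v.conjTranspose) := by simp only [Matrix.mul_assoc]
      _ = Q := by rw [h2, hQ]
  · rw [Matrix.mul_assoc, hP]
  · intro hK i j
    rw [Matrix.mul_apply]
    exact IsK.sum _ _ (fun a _ => (hK a j).mul_left _)

lemma EE_mul (σ : Type) [Fintype σ] [DecidableEq σ] : EE σ * EE σ = EE σ := by
  rw [EE, Matrix.diagonal_mul_diagonal]
  simp [e0_mul]

lemma EE_star (σ : Type) [Fintype σ] [DecidableEq σ] : (EE σ).conjTranspose = EE σ := by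
  rw [EE, Matrix.diagonal_conjTranspose]
  congr 1
  funext i
  exact e0_star

lemma EE_K (σ : Type) [Fintype σ] [DecidableEq σ] (i j : σ) : IsK (EE σ i j) := by
  rw [EE, Matrix.diagonal_apply]
  split_ifs
  · exact isK_e0
  · exact IsK.zero

open Classical in
/-- the rank -/
noncomputable def rk {k : ℕ} (P : Matrix (Fin k) (Fin k) BB) : ℕ :=
  if h : ∃ r : ℕ, MvN P (EE (Fin r)) then Classical.choose h else 0

lemma rk_spec {k : ℕ} {P : Matrix (Fin k) (Fin k) BB} (hP : KProj P) :
    MvN P (EE (Fin (rk P))) := by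
  have h : ∃ r : ℕ, MvN P (EE (Fin r)) := by
    obtain ⟨r, v, h1, h2⟩ := exists_std P hP.1 hP.2.1 hP.2.2
    exact ⟨r, v, h1, h2⟩
  unfold rk
  rw [dif_pos h]
  exact Classical.choose_spec h

lemma rk_eq {k : ℕ} {P : Matrix (Fin k) (Fin k) BB} (hP : KProj P) {σ : Type} [Fintype σ]
    [DecidableEq σ] (h : MvN P (EE σ)) : rk P = Fintype.card σ := by
  have h1 := (rk_spec hP).symm.trans h (EE_mul _) (EE_mul _)
  obtain ⟨v, h2, h3⟩ := h1
  have := std_card v h2 h3
  rwa [Fintype.card_fin] at this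

lemma rk_iff {k l : ℕ} {P : Matrix (Fin k) (Fin k) BB} {Q : Matrix (Fin l) (Fin l) BB}
    (hP : KProj P) (hQ : KProj Q) : rk P = rk Q ↔ MvN P Q := by
  constructor
  · intro h
    have h1 := rk_spec hP
    rw [h] at h1
    exact h1.trans (rk_spec hQ).symm hP.1 hQ.1
  · intro h
    have h1 := h.trans (rk_spec hQ) hP.1 (EE_mul _)
    rw [rk_eq hP h1, Fintype.card_fin]

lemma KProj.block {k l : ℕ} {P : Matrix (Fin k) (Fin k) BB} {Q : Matrix (Fin l) (Fin l) BB}
    (hP : KProj P) (hQ : KProj Q) :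
    KProj (Matrix.reindex finSumFinEquiv finSumFinEquiv (Matrix.fromBlocks P 0 0 Q)) := by
  refine ⟨?_, ?_, ?_⟩
  · rw [Matrix.reindex_apply, Matrix.submatrix_mul_equiv, Matrix.fromBlocks_multiply]
    simp [hP.1, hQ.1]
  · rw [Matrix.reindex_apply, Matrix.conjTranspose_submatrix, Matrix.fromBlocks_conjTranspose]
    simp [hP.2.1, hQ.2.1]
  · intro i j
    rw [Matrix.reindex_apply, Matrix.submatrix_apply]
    rcases finSumFinEquiv.symm i with a | a <;> rcases finSumFinEquiv.symm j with b | b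
    · simpa using hP.2.2 a b
    · simpa using IsK.zero
    · simpa using IsK.zero
    · simpa using hQ.2.2 a b

lemma rk_block {k l : ℕ} {P : Matrix (Fin k) (Fin k) BB} {Q : Matrix (Fin l) (Fin l) BB}
    (hP : KProj P) (hQ : KProj Q) :
    rk (Matrix.reindex finSumFinEquiv finSumFinEquiv (Matrix.fromBlocks P 0 0 Q))
      = rk P + rk Q := by
  obtain ⟨v, h1, h2⟩ := rk_spec hP
  obtain ⟨w, h3, h4⟩ := rk_spec hQ
  have h : MvN (Matrix.reindex finSumFinEquiv finSumFinEquiv (Matrix.fromBlocks P 0 0 Q))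
      (EE (Fin (rk P) ⊕ Fin (rk Q))) := by
    refine ⟨(Matrix.fromBlocks v 0 0 w).submatrix id finSumFinEquiv.symm, ?_, ?_⟩
    · rw [Matrix.conjTranspose_submatrix, ← Matrix.submatrix_mul _ _ _ _ _ Function.bijective_id,
        Matrix.fromBlocks_conjTranspose, Matrix.fromBlocks_multiply]
      simp [h1, h3]
    · rw [Matrix.conjTranspose_submatrix,
        ← Matrix.submatrix_mul _ _ _ _ _ (finSumFinEquiv.symm.bijective),
        Matrix.fromBlocks_conjTranspose, Matrix.fromBlocks_multiply]
      simp [h2, h4, EE]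
  have := rk_eq (hP.block hQ) h
  rwa [Fintype.card_sum, Fintype.card_fin, Fintype.card_fin] at this

/-! ### multiplicity embeddings -/

/-- index of the copies -/
abbrev SI {m : ℕ} (c : Fin m → ℕ) : Type := Σ i : Fin m, Fin (c i)

/-- the isometry attached to an index -/
noncomputable def wI {m : ℕ} {c : Fin m → ℕ} (s : SI c) : BB := ww (Nat.pair s.1 s.2)

lemma wI_star_mul {m : ℕ} {c : Fin m → ℕ} (s t : SI c) :
    star (wI s) * wI t = if s = t then 1 else 0 := by
  rw [wI, wI, ww_star_mul]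
  have : (Nat.pair (s.1 : ℕ) (s.2 : ℕ) = Nat.pair (t.1 : ℕ) (t.2 : ℕ)) ↔ s = t := by
    rw [Nat.pair_eq_pair]
    constructor
    · rintro ⟨h1, h2⟩
      obtain ⟨i, a⟩ := s
      obtain ⟨j, b⟩ := t
      have h3 : i = j := Fin.ext h1
      subst h3
      have h4 : a = b := Fin.ext h2
      rw [h4]
    · rintro rfl
      exact ⟨rfl, rfl⟩
  simp only [this]

/-- the homomorphism with multiplicities `c` -/
noncomputable def Phi {m : ℕ} (c : Fin m → ℕ) (x : Fin m → BB) : BB :=
  ∑ s : SI c, wI s * x s.1 * star (wI s)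

lemma Phi_mul {m : ℕ} (c : Fin m → ℕ) (x y : Fin m → BB) :
    Phi c (fun i => x i * y i) = Phi c x * Phi c y := by
  classical
  rw [Phi, Phi, Phi, Finset.sum_mul_sum]
  apply Finset.sum_congr rfl
  intro s _
  rw [Finset.sum_eq_single s]
  · have h : wI s * x s.1 * star (wI s) * (wI s * y s.1 * star (wI s))
        = wI s * x s.1 * (star (wI s) * wI s) * y s.1 * star (wI s) := by noncomm_ring
    rw [h, wI_star_mul, if_pos rfl, mul_one]
    noncomm_ring
  · intro t _ hts
    have h : wI s * x s.1 * star (wI s) * (wI t * y t.1 * star (wI t))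
        = wI s * x s.1 * (star (wI s) * wI t) * y t.1 * star (wI t) := by noncomm_ring
    rw [h, wI_star_mul, if_neg (Ne.symm hts)]
    simp
  · simp

lemma Phi_add {m : ℕ} (c : Fin m → ℕ) (x y : Fin m → BB) :
    Phi c (fun i => x i + y i) = Phi c x + Phi c y := by
  rw [Phi, Phi, Phi, ← Finset.sum_add_distrib]
  apply Finset.sum_congr rfl
  intro s _
  rw [mul_add, add_mul]

lemma Phi_zero {m : ℕ} (c : Fin m → ℕ) : Phi c (fun _ => 0) = 0 := by
  simp [Phi]

lemma Phi_smul {m : ℕ} (c : Fin m → ℕ) (a : ℂ) (x : Fin m → BB) :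
    Phi c (fun i => a • x i) = a • Phi c x := by
  rw [Phi, Phi, Finset.smul_sum]
  apply Finset.sum_congr rfl
  intro s _
  rw [mul_smul_comm, smul_mul_assoc]

lemma Phi_star {m : ℕ} (c : Fin m → ℕ) (x : Fin m → BB) :
    Phi c (fun i => star (x i)) = star (Phi c x) := by
  rw [Phi, Phi, star_sum]
  apply Finset.sum_congr rfl
  intro s _
  rw [star_mul, star_mul, star_star, mul_assoc]

lemma Phi_sum {m : ℕ} (c : Fin m → ℕ) {σ : Type} (S : Finset σ) (x : σ → Fin m → BB) :
    Phi c (fun i => ∑ a ∈ S, x a i) = ∑ a ∈ S, Phi c (x a) := by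
  classical
  induction S using Finset.induction_on with
  | empty => simpa using Phi_zero c
  | insert a S ha ih =>
    simp only [Finset.sum_insert ha]
    rw [Phi_add, ih]

lemma Phi_K {m : ℕ} (c : Fin m → ℕ) (x : Fin m → BB) (h : ∀ i, IsK (x i)) : IsK (Phi c x) :=
  IsK.sum _ _ (fun s _ => ((h s.1).mul_left _).mul_right _)

lemma Phi_continuous {m : ℕ} (c : Fin m → ℕ) : Continuous (Phi c) := by
  unfold Phi
  fun_prop

/-- matrix version -/
noncomputable def PhiM {m : ℕ} (c : Fin m → ℕ) {ι κ : Type} (P : Fin m → Matrix ι κ BB) :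
    Matrix ι κ BB := Matrix.of fun a b => Phi c (fun i => P i a b)

lemma PhiM_mul {m : ℕ} (c : Fin m → ℕ) {ι κ σ : Type} [Fintype κ] (P : Fin m → Matrix ι κ BB)
    (Q : Fin m → Matrix κ σ BB) : PhiM c (fun i => P i * Q i) = PhiM c P * PhiM c Q := by
  apply Matrix.ext
  intro a b
  simp only [PhiM, Matrix.of_apply, Matrix.mul_apply]
  rw [Phi_sum]
  apply Finset.sum_congr rfl
  intro d _
  rw [Phi_mul]

lemma PhiM_conjTranspose {m : ℕ} (c : Fin m → ℕ) {ι κ : Type} (P : Fin m → Matrix ι κ BB) :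
    PhiM c (fun i => (P i).conjTranspose) = (PhiM c P).conjTranspose := by
  apply Matrix.ext
  intro a b
  simp only [PhiM, Matrix.of_apply, Matrix.conjTranspose_apply]
  rw [← Phi_star]

lemma PhiM_KProj {m : ℕ} (c : Fin m → ℕ) {k : ℕ} {P : Fin m → Matrix (Fin k) (Fin k) BB}
    (h : ∀ i, KProj (P i)) : KProj (PhiM c P) := by
  refine ⟨?_, ?_, ?_⟩
  · rw [← PhiM_mul]
    congr 1
    funext i
    exact (h i).1
  · rw [← PhiM_conjTranspose]
    congr 1
    funext i
    exact (h i).2.1
  · intro a b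
    show IsK (Phi c (fun i => P i a b))
    exact Phi_K c (fun i => P i a b) (fun i => (h i).2.2 a b)

lemma rk_PhiM {m : ℕ} (c : Fin m → ℕ) {k : ℕ} {P : Fin m → Matrix (Fin k) (Fin k) BB}
    (h : ∀ i, KProj (P i)) : rk (PhiM c P) = ∑ i, c i * rk (P i) := by
  classical
  choose v h1 h2 using fun i => rk_spec (h i)
  let V : Matrix (Σ s : SI c, Fin (rk (P s.1))) (Fin k) BB :=
    Matrix.of fun x b => v x.1.1 x.2 b * star (wI x.1)
  have hV : MvN (PhiM c P) (EE (Σ s : SI c, Fin (rk (P s.1)))) := by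
    refine ⟨V, ?_, ?_⟩
    · apply Matrix.ext
      intro a b
      rw [Matrix.mul_apply]
      simp only [PhiM, Matrix.of_apply, Phi]
      rw [Fintype.sum_sigma]
      apply Finset.sum_congr rfl
      intro s _
      have h3 : P s.1 a b = ∑ d, star (v s.1 d a) * v s.1 d b := by
        conv_lhs => rw [← h1 s.1]
        rw [Matrix.mul_apply]
        rfl
      rw [h3, Finset.mul_sum, Finset.sum_mul]
      apply Finset.sum_congr rfl
      intro d _
      rw [Matrix.conjTranspose_apply]
      simp only [V, Matrix.of_apply]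
      rw [star_mul, star_star]
      noncomm_ring
    · apply Matrix.ext
      rintro ⟨s, a⟩ ⟨t, b⟩
      rw [Matrix.mul_apply]
      have h4 : ∀ d, V ⟨s, a⟩ d * V.conjTranspose d ⟨t, b⟩
          = v s.1 a d * (star (wI s) * wI t) * star (v t.1 b d) := by
        intro d
        rw [Matrix.conjTranspose_apply]
        simp only [V, Matrix.of_apply]
        rw [star_mul, star_star]
        noncomm_ring
      rw [Finset.sum_congr rfl (fun d _ => h4 d)]
      simp only [wI_star_mul]
      by_cases hst : s = t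
      · subst hst
        simp only [if_true, mul_one]
        have h5 := congrFun (congrFun (h2 s.1) a) b
        rw [Matrix.mul_apply] at h5
        have h6 : EE (Σ s : SI c, Fin (rk (P s.1))) ⟨s, a⟩ ⟨s, b⟩ = EE (Fin (rk (P s.1))) a b := by
          simp only [EE, Matrix.diagonal_apply]
          congr 1
          simp
        rw [h6, ← h5]
        rfl
      · simp only [if_neg hst, mul_zero, zero_mul, Finset.sum_const_zero]
        rw [EE, Matrix.diagonal_apply, if_neg]
        intro h7
        exact hst (congrArg Sigma.fst h7)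
  have h8 := rk_eq (PhiM_KProj c h) hV
  rw [h8, Fintype.card_sigma, Fintype.sum_sigma]
  apply Finset.sum_congr rfl
  intro i _
  simp

end Pool.Agent.H494R3
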