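import Mathlib
import Pool.Agent.H494R3.Homot

set_option autoImplicit false
set_option linter.style.haveILetI false

namespace Pool.Agent.H494R3

open scoped CStarAlgebra ComplexOrder unitInterval Pointwise

/-- The unitary group `U(r)` is path connected, in matrix form. -/
theorem unitary_path {r : ℕ} (U : Matrix (Fin r) (Fin r) ℂ) (h1 : U.conjTranspose * U = 1)
    (h2 : U * U.conjTranspose = 1) :
    ∃ L : Matrix (Fin r) (Fin r) C(I, ℂ), L.conjTranspose * L = 1 ∧ L * L.conjTranspose = 1 ∧
      evM 0 L = 1 ∧ evM 1 L = U := by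
  classical
  have hfin : (spectrum ℂ U).Finite := Matrix.finite_spectrum U
  have hinf : (((fun x : ℝ => -(Circle.exp x : ℂ)) '' Set.Icc (0:ℝ) 1)).Infinite := by
    apply Set.Infinite.image
    · intro x hx y hy hxy
      have h3 : Circle.exp x = Circle.exp y := by
        ext
        simpa using hxy
      exact Circle.exp_injOn_Icc (a := 0) (b := 1) (by linarith [Real.pi_gt_three]) hx hy h3
    · exact Set.Icc_infinite one_pos
  obtain ⟨z, ⟨x, hx, hxz⟩, hz⟩ : ∃ z ∈ ((fun x : ℝ => -(Circle.exp x : ℂ)) '' Set.Icc (0:ℝ) 1),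
      z ∉ spectrum ℂ U := by
    by_contra hcon
    push Not at hcon
    exact hinf (hfin.subset hcon)
  set c : ℂ := (Circle.exp x : ℂ) with hc
  have hcc : star c * c = 1 := by
    rw [hc, Complex.star_def, ← Complex.normSq_eq_conj_mul_self, Circle.normSq_coe]
    simp
  have hcc' : c * star c = 1 := by rw [mul_comm]; exact hcc
  have hc0 : c ≠ 0 := by
    intro h0; rw [h0] at hcc; simp at hcc
  let V : CStarMatrix (Fin r) (Fin r) ℂ := CStarMatrix.ofMatrix (star c • U)
  have hV : V ∈ unitary (CStarMatrix (Fin r) (Fin r) ℂ) := by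
    rw [Unitary.mem_iff]
    constructor
    · show CStarMatrix.ofMatrix ((star c • U).conjTranspose * (star c • U)) = _
      rw [Matrix.conjTranspose_smul, star_star, Matrix.smul_mul, Matrix.mul_smul, smul_smul, h1,
        hcc', one_smul]
      rfl
    · show CStarMatrix.ofMatrix ((star c • U) * (star c • U).conjTranspose) = _
      rw [Matrix.conjTranspose_smul, star_star, Matrix.smul_mul, Matrix.mul_smul, smul_smul, h2,
        hcc, one_smul]
      rfl
  have hspec : (-1 : ℂ) ∉ spectrum ℂ V := by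
    intro hmem
    apply hz
    have h3 : (-1 : ℂ) ∈ spectrum ℂ (star c • U) := hmem
    have h4 : c • (-1 : ℂ) ∈ c • spectrum ℂ (star c • U) := Set.smul_mem_smul_set h3
    have h5 : c • spectrum ℂ (star c • U) = spectrum ℂ (c • (star c • U)) := by
      have := spectrum.unit_smul_eq_smul (star c • U) (Units.mk0 c hc0)
      exact this.symm
    rw [h5, smul_smul, hcc', one_smul] at h4
    have h6 : z = -c := hxz.symm
    rw [h6]
    simpa using h4
  have hlt : ‖V - 1‖ < 2 := (Unitary.norm_sub_one_lt_two_iff hV).mpr hspec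
  let Vu : unitary (CStarMatrix (Fin r) (Fin r) ℂ) := ⟨V, hV⟩
  let γ : Path (1 : unitary (CStarMatrix (Fin r) (Fin r) ℂ)) Vu :=
    Unitary.path 1 Vu hlt
  have hγc : Continuous (fun t : I => ((γ t : unitary (CStarMatrix (Fin r) (Fin r) ℂ)) :
      CStarMatrix (Fin r) (Fin r) ℂ)) := continuous_subtype_val.comp γ.continuous
  have hγc' : Continuous (fun t : I => (CStarMatrix.ofMatrix.symm
      ((γ t : unitary (CStarMatrix (Fin r) (Fin r) ℂ)) : CStarMatrix (Fin r) (Fin r) ℂ) :
      Matrix (Fin r) (Fin r) ℂ)) := hγc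
  let sc : C(I, ℂ) := ⟨fun t => (Circle.exp (x * t) : ℂ), by
    exact continuous_subtype_val.comp (Circle.exp.continuous.comp (by fun_prop))⟩
  let L : Matrix (Fin r) (Fin r) C(I, ℂ) := Matrix.of fun i j =>
    (⟨fun t => sc t * (CStarMatrix.ofMatrix.symm
      ((γ t : unitary (CStarMatrix (Fin r) (Fin r) ℂ)) : CStarMatrix (Fin r) (Fin r) ℂ)) i j,
      by
        apply (map_continuous sc).mul
        exact (continuous_apply j).comp ((continuous_apply i).comp hγc')⟩ : C(I, ℂ))
  have hL : ∀ t, evM t L = sc t • (CStarMatrix.ofMatrix.symm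
      ((γ t : unitary (CStarMatrix (Fin r) (Fin r) ℂ)) : CStarMatrix (Fin r) (Fin r) ℂ)) := by
    intro t
    ext i j
    simp [evM, L]
  have hsc : ∀ t, star (sc t) * sc t = 1 := by
    intro t
    show star (Circle.exp (x * t) : ℂ) * (Circle.exp (x * t) : ℂ) = 1
    rw [Complex.star_def, ← Complex.normSq_eq_conj_mul_self, Circle.normSq_coe]
    simp
  refine ⟨L, ?_, ?_, ?_, ?_⟩
  · apply evM_ext
    intro t
    rw [evM_mul, evM_conjTranspose, evM_one, hL, Matrix.conjTranspose_smul, Matrix.smul_mul,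
      Matrix.mul_smul, smul_smul, hsc, one_smul]
    exact (Unitary.mem_iff.mp (γ t).2).1
  · apply evM_ext
    intro t
    rw [evM_mul, evM_conjTranspose, evM_one, hL, Matrix.conjTranspose_smul, Matrix.smul_mul,
      Matrix.mul_smul, smul_smul, mul_comm, hsc, one_smul]
    exact (Unitary.mem_iff.mp (γ t).2).2
  · rw [hL, γ.source]
    have : sc 0 = 1 := by simp [sc]
    rw [this, one_smul]
    rfl
  · rw [hL, γ.target]
    have : sc 1 = c := by simp [sc, hc]
    rw [this]
    show c • (star c • U) = U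
    rw [smul_smul, hcc', one_smul]

end Pool.Agent.H494R3
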