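import Mathlib
import Pool.Agent.H494R3.Homot
import Pool.Agent.H494R3.UPath
import Pool.Agent.H494R3.Mvn

set_option autoImplicit false
set_option linter.style.haveILetI false

namespace Pool.Agent.H494R3

open InnerProductSpace Matrix
open scoped CStarAlgebra ComplexOrder unitInterval

/-- entries of partial isometry matrices are contractions -/
theorem entry_norm_le {A : Type} [CStarAlgebra A] {k l : ℕ} (v : Matrix (Fin l) (Fin k) A)
    (p : Matrix (Fin k) (Fin k) A) (h : v.conjTranspose * v = p) (hp : p * p = p)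
    (hps : p.conjTranspose = p) (i : Fin l) (j : Fin k) : ‖v i j‖ ≤ 1 := by
  classical
  letI : PartialOrder A := CStarAlgebra.spectralOrder _
  haveI : StarOrderedRing A := CStarAlgebra.spectralOrderedRing _
  let V : CStarMatrix (Fin l ⊕ Fin k) (Fin l ⊕ Fin k) A :=
    CStarMatrix.ofMatrix (Matrix.fromBlocks 0 v 0 0)
  let Q : CStarMatrix (Fin l ⊕ Fin k) (Fin l ⊕ Fin k) A :=
    CStarMatrix.ofMatrix (Matrix.fromBlocks 0 0 0 p)
  have h1 : star V * V = Q := by
    show CStarMatrix.ofMatrix ((Matrix.fromBlocks 0 v 0 0).conjTranspose *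
      (Matrix.fromBlocks 0 v 0 0)) = _
    rw [Matrix.fromBlocks_conjTranspose, Matrix.fromBlocks_multiply]
    simp [h, Q]
  have h2 : Q * Q = Q := by
    show CStarMatrix.ofMatrix ((Matrix.fromBlocks 0 0 0 p) * (Matrix.fromBlocks 0 0 0 p)) = _
    rw [Matrix.fromBlocks_multiply]
    simp [hp, Q]
  have h3 : star Q = Q := by
    show CStarMatrix.ofMatrix ((Matrix.fromBlocks 0 0 0 p).conjTranspose) = _
    rw [Matrix.fromBlocks_conjTranspose]
    simp [hps, Q]
  have h4 : ‖Q‖ ≤ 1 := IsStarProjection.norm_le Q ⟨h2, h3⟩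
  have h5 : ‖V‖ * ‖V‖ ≤ 1 := by
    rw [← CStarRing.norm_star_mul_self, h1]
    exact h4
  have h6 : ‖V‖ ≤ 1 := by nlinarith [norm_nonneg V]
  have h7 : ‖V (Sum.inl i) (Sum.inr j)‖ ≤ ‖V‖ := CStarMatrix.norm_entry_le_norm
  have h8 : V (Sum.inl i) (Sum.inr j) = v i j := rfl
  rw [h8] at h7
  exact h7.trans h6

/-- scalar matrix path times `e0` -/
noncomputable def LE {r : ℕ} (L : Matrix (Fin r) (Fin r) C(I, ℂ)) : Matrix (Fin r) (Fin r) C(I, BB) :=
  Matrix.of fun i j => ⟨fun t => L i j t • e0, by fun_prop⟩

lemma evM_LE {r : ℕ} (L : Matrix (Fin r) (Fin r) C(I, ℂ)) (t : I) :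
    evM t (LE L) = (evM t L).map (fun c => c • e0) := by
  apply Matrix.ext
  intro i j
  simp [evM, LE]

lemma mapE_mul {r : ℕ} (L M : Matrix (Fin r) (Fin r) ℂ) :
    (L * M).map (fun c => c • e0) = L.map (fun c => c • e0) * M.map (fun c => c • e0) := by
  apply Matrix.ext
  intro i j
  rw [Matrix.map_apply, Matrix.mul_apply, Matrix.mul_apply, Finset.sum_smul]
  apply Finset.sum_congr rfl
  intro a _
  rw [Matrix.map_apply, Matrix.map_apply, smul_mul_smul_comm, e0_mul]

lemma mapE_star {r : ℕ} (L : Matrix (Fin r) (Fin r) ℂ) :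
    (L.conjTranspose).map (fun c => c • e0) = (L.map (fun c => c • e0)).conjTranspose := by
  apply Matrix.ext
  intro i j
  rw [Matrix.map_apply, Matrix.conjTranspose_apply, Matrix.conjTranspose_apply, Matrix.map_apply,
    star_smul, e0_star]

lemma mapE_one {r : ℕ} : (1 : Matrix (Fin r) (Fin r) ℂ).map (fun c => c • e0) = EE (Fin r) := by
  apply Matrix.ext
  intro i j
  rw [Matrix.map_apply, EE, Matrix.diagonal_apply, Matrix.one_apply]
  split_ifs <;> simp

lemma mapE_inj {r : ℕ} {L M : Matrix (Fin r) (Fin r) ℂ}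
    (h : L.map (fun c => c • e0) = M.map (fun c => c • e0)) : L = M := by
  apply Matrix.ext
  intro i j
  have h1 := congrFun (congrFun h i) j
  rw [Matrix.map_apply, Matrix.map_apply] at h1
  have : (L i j - M i j) • e0 = 0 := by rw [sub_smul, h1, sub_self]
  rcases smul_eq_zero.mp this with h | h
  · exact sub_eq_zero.mp h
  · exact absurd h e0_ne

/-- partial isometries over paths with prescribed end values -/
theorem path_lemma {k l : ℕ} (p : Matrix (Fin k) (Fin k) C(I, BB))
    (q : Matrix (Fin l) (Fin l) C(I, BB)) (hp : p * p = p) (hps : p.conjTranspose = p)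
    (hq : q * q = q) (hqs : q.conjTranspose = q) (hpK : ∀ i j, IsK (evM 0 p i j))
    (v0 v1 : Matrix (Fin l) (Fin k) BB)
    (h01 : v0.conjTranspose * v0 = evM 0 p) (h02 : v0 * v0.conjTranspose = evM 0 q)
    (h03 : v0 * evM 0 p = v0)
    (h11 : v1.conjTranspose * v1 = evM 1 p) (h12 : v1 * v1.conjTranspose = evM 1 q)
    (h13 : v1 * evM 1 p = v1) :
    ∃ v : Matrix (Fin l) (Fin k) C(I, BB), v.conjTranspose * v = p ∧ v * v.conjTranspose = q ∧
      evM 0 v = v0 ∧ evM 1 v = v1 ∧ v * p = v := by
  classical
  obtain ⟨wp, wp1, wp2, wp3, wp4⟩ := homot p hp hps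
  obtain ⟨wq, wq1, wq2, wq3, wq4⟩ := homot q hq hqs
  set p0 := evM 0 p with hp0
  set q0 := evM 0 q with hq0
  have p0p : p0 * p0 = p0 := by rw [hp0, ← evM_mul, hp]
  have p0s : p0.conjTranspose = p0 := by rw [hp0, ← evM_conjTranspose, hps]
  have q0q : q0 * q0 = q0 := by rw [hq0, ← evM_mul, hq]
  have q0s : q0.conjTranspose = q0 := by rw [hq0, ← evM_conjTranspose, hqs]
  have hKP : KProj p0 := ⟨p0p, p0s, hpK⟩
  set r := rk p0 with hr
  obtain ⟨a', ha1, ha2⟩ := rk_spec hKP
  -- a : k × r
  set a := a'.conjTranspose * EE (Fin r) with ha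
  have haE : a * EE (Fin r) = a := by rw [ha, Matrix.mul_assoc, EE_mul]
  have haa : a * a.conjTranspose = p0 := by
    rw [ha, conjTranspose_mul, conjTranspose_conjTranspose, EE_star]
    calc a'.conjTranspose * EE (Fin r) * (EE (Fin r) * a')
        = a'.conjTranspose * (EE (Fin r) * EE (Fin r)) * a' := by simp only [Matrix.mul_assoc]
      _ = a'.conjTranspose * (a' * a'.conjTranspose) * a' := by rw [EE_mul, ha2]
      _ = (a'.conjTranspose * a') * (a'.conjTranspose * a') := by simp only [Matrix.mul_assoc]
      _ = p0 := by rw [ha1, p0p]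
  have haa' : a.conjTranspose * a = EE (Fin r) := by
    rw [ha, conjTranspose_mul, conjTranspose_conjTranspose, EE_star]
    calc EE (Fin r) * a' * (a'.conjTranspose * EE (Fin r))
        = EE (Fin r) * (a' * a'.conjTranspose) * EE (Fin r) := by simp only [Matrix.mul_assoc]
      _ = EE (Fin r) := by rw [ha2, EE_mul, EE_mul]
  clear_value a
  set b := v0 * a with hb
  have hbE : b * EE (Fin r) = b := by rw [hb, Matrix.mul_assoc, haE]
  have hbb : b * b.conjTranspose = q0 := by
    rw [hb, conjTranspose_mul]
    calc v0 * a * (a.conjTranspose * v0.conjTranspose)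
        = v0 * (a * a.conjTranspose) * v0.conjTranspose := by simp only [Matrix.mul_assoc]
      _ = q0 := by rw [haa, h03, h02]
  have hbb' : b.conjTranspose * b = EE (Fin r) := by
    rw [hb, conjTranspose_mul]
    calc a.conjTranspose * v0.conjTranspose * (v0 * a)
        = a.conjTranspose * (v0.conjTranspose * v0) * a := by simp only [Matrix.mul_assoc]
      _ = a.conjTranspose * (a * a.conjTranspose) * a := by rw [h01, haa]
      _ = (a.conjTranspose * a) * (a.conjTranspose * a) := by simp only [Matrix.mul_assoc]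
      _ = EE (Fin r) := by rw [haa', EE_mul]
  clear_value b
  set Wp := evM 1 wp with hWp
  set Wq := evM 1 wq with hWq
  have Wp1 : Wp.conjTranspose * Wp = 1 := by
    rw [hWp, ← evM_conjTranspose, ← evM_mul, wp1, evM_one]
  have Wp2 : Wp * Wp.conjTranspose = 1 := by
    rw [hWp, ← evM_conjTranspose, ← evM_mul, wp2, evM_one]
  have Wq1 : Wq.conjTranspose * Wq = 1 := by
    rw [hWq, ← evM_conjTranspose, ← evM_mul, wq1, evM_one]
  have Wq2 : Wq * Wq.conjTranspose = 1 := by
    rw [hWq, ← evM_conjTranspose, ← evM_mul, wq2, evM_one]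
  have Wp4 : Wp * p0 * Wp.conjTranspose = evM 1 p := by
    have := congrArg (evM 1) wp4
    rwa [evM_mul, evM_mul, evM_cM, evM_conjTranspose] at this
  have Wq4 : Wq * q0 * Wq.conjTranspose = evM 1 q := by
    have := congrArg (evM 1) wq4
    rwa [evM_mul, evM_mul, evM_cM, evM_conjTranspose] at this
  set y1 := Wq.conjTranspose * v1 * Wp with hy1
  have hpW : evM 1 p * Wp = Wp * p0 := by
    rw [← Wp4, Matrix.mul_assoc, Wp1, Matrix.mul_one]
  have hqW : Wq.conjTranspose * evM 1 q = q0 * Wq.conjTranspose := by
    rw [← Wq4]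
    calc Wq.conjTranspose * (Wq * q0 * Wq.conjTranspose)
        = (Wq.conjTranspose * Wq) * q0 * Wq.conjTranspose := by simp only [Matrix.mul_assoc]
      _ = _ := by rw [Wq1, Matrix.one_mul]
  have y1p : y1 * p0 = y1 := by
    rw [hy1]
    calc Wq.conjTranspose * v1 * Wp * p0 = Wq.conjTranspose * v1 * (Wp * p0) := by
          simp only [Matrix.mul_assoc]
      _ = Wq.conjTranspose * (v1 * evM 1 p) * Wp := by
          rw [← hpW]; simp only [Matrix.mul_assoc]
      _ = _ := by rw [h13]
  have y1y : y1.conjTranspose * y1 = p0 := by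
    rw [hy1, conjTranspose_mul, conjTranspose_mul, conjTranspose_conjTranspose]
    calc Wp.conjTranspose * (v1.conjTranspose * Wq) * (Wq.conjTranspose * v1 * Wp)
        = Wp.conjTranspose * v1.conjTranspose * (Wq * Wq.conjTranspose) * v1 * Wp := by
          simp only [Matrix.mul_assoc]
      _ = Wp.conjTranspose * ((v1.conjTranspose * v1) * Wp) := by
          rw [Wq2, Matrix.mul_one]; simp only [Matrix.mul_assoc]
      _ = (Wp.conjTranspose * Wp) * p0 := by rw [h11, hpW]; simp only [Matrix.mul_assoc]
      _ = p0 := by rw [Wp1, Matrix.one_mul]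
  have yy1 : y1 * y1.conjTranspose = q0 := by
    rw [hy1, conjTranspose_mul, conjTranspose_mul, conjTranspose_conjTranspose]
    calc Wq.conjTranspose * v1 * Wp * (Wp.conjTranspose * (v1.conjTranspose * Wq))
        = Wq.conjTranspose * v1 * (Wp * Wp.conjTranspose) * v1.conjTranspose * Wq := by
          simp only [Matrix.mul_assoc]
      _ = (Wq.conjTranspose * (v1 * v1.conjTranspose)) * Wq := by
          rw [Wp2, Matrix.mul_one]; simp only [Matrix.mul_assoc]
      _ = q0 * (Wq.conjTranspose * Wq) := by rw [h12, hqW]; simp only [Matrix.mul_assoc]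
      _ = q0 := by rw [Wq1, Matrix.mul_one]
  have qy : q0 * y1 = y1 := by
    rw [← yy1, Matrix.mul_assoc, y1y, y1p]
  clear_value y1
  set c := b.conjTranspose * y1 * a with hc
  have hcc : c.conjTranspose * c = EE (Fin r) := by
    rw [hc, conjTranspose_mul, conjTranspose_mul, conjTranspose_conjTranspose]
    calc a.conjTranspose * (y1.conjTranspose * b) * (b.conjTranspose * y1 * a)
        = a.conjTranspose * (y1.conjTranspose * ((b * b.conjTranspose) * y1)) * a := by
          simp only [Matrix.mul_assoc]
      _ = a.conjTranspose * (a * a.conjTranspose) * a := by rw [hbb, qy, y1y, haa]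
      _ = (a.conjTranspose * a) * (a.conjTranspose * a) := by simp only [Matrix.mul_assoc]
      _ = EE (Fin r) := by rw [haa', EE_mul]
  have hcc' : c * c.conjTranspose = EE (Fin r) := by
    rw [hc, conjTranspose_mul, conjTranspose_mul, conjTranspose_conjTranspose]
    calc b.conjTranspose * y1 * a * (a.conjTranspose * (y1.conjTranspose * b))
        = b.conjTranspose * ((y1 * (a * a.conjTranspose)) * y1.conjTranspose) * b := by
          simp only [Matrix.mul_assoc]
      _ = b.conjTranspose * (b * b.conjTranspose) * b := by rw [haa, y1p, yy1, hbb]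
      _ = (b.conjTranspose * b) * (b.conjTranspose * b) := by simp only [Matrix.mul_assoc]
      _ = EE (Fin r) := by rw [hbb', EE_mul]
  have hbE' : EE (Fin r) * b.conjTranspose = b.conjTranspose := by
    have := congrArg conjTranspose hbE
    rwa [conjTranspose_mul, EE_star] at this
  have hcE : EE (Fin r) * c * EE (Fin r) = c := by
    rw [hc]
    calc EE (Fin r) * (b.conjTranspose * y1 * a) * EE (Fin r)
        = (EE (Fin r) * b.conjTranspose) * y1 * (a * EE (Fin r)) := by
          simp only [Matrix.mul_assoc]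
      _ = _ := by rw [hbE', haE]
  let U : Matrix (Fin r) (Fin r) ℂ := Matrix.of fun i j => (inner ℂ (ee 0) (c i j (ee 0)) : ℂ)
  have hU : U.map (fun z => z • e0) = c := by
    rw [← hcE]
    apply Matrix.ext
    intro i j
    simp only [EE, Matrix.mul_diagonal, Matrix.diagonal_mul, Matrix.map_apply, U, Matrix.of_apply]
    exact (e0_corner _).symm
  have hU1 : U.conjTranspose * U = 1 := by
    apply mapE_inj
    rw [mapE_mul, mapE_star, hU, hcc, mapE_one]
  have hU2 : U * U.conjTranspose = 1 := by
    apply mapE_inj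
    rw [mapE_mul, mapE_star, hU, hcc', mapE_one]
  obtain ⟨L, L1, L2, L3, L4⟩ := unitary_path U hU1 hU2
  have hLE1 : ∀ t, (evM t (LE L)).conjTranspose * evM t (LE L) = EE (Fin r) := by
    intro t
    rw [evM_LE, ← mapE_star, ← mapE_mul, ← evM_conjTranspose, ← evM_mul, L1, evM_one, mapE_one]
  have hLE2 : ∀ t, evM t (LE L) * (evM t (LE L)).conjTranspose = EE (Fin r) := by
    intro t
    rw [evM_LE, ← mapE_star, ← mapE_mul, ← evM_conjTranspose, ← evM_mul, L2, evM_one, mapE_one]
  have hbaE : ∀ t, evM t (LE L) * EE (Fin r) = evM t (LE L) := by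
    intro t
    rw [evM_LE, ← mapE_one, ← mapE_mul, Matrix.mul_one]
  set V : Matrix (Fin l) (Fin k) C(I, BB) :=
    wq * (cM b * LE L * cM a.conjTranspose) * wp.conjTranspose with hV
  have hVt : ∀ t, evM t V = evM t wq * (b * evM t (LE L) * a.conjTranspose) *
      (evM t wp).conjTranspose := by
    intro t
    rw [hV]
    simp only [evM_mul, evM_cM, evM_conjTranspose]
  have wpt : ∀ t, (evM t wp).conjTranspose * evM t wp = 1 := by
    intro t; rw [← evM_conjTranspose, ← evM_mul, wp1, evM_one]
  have wqt : ∀ t, (evM t wq).conjTranspose * evM t wq = 1 := by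
    intro t; rw [← evM_conjTranspose, ← evM_mul, wq1, evM_one]
  have wp4t : ∀ t, evM t wp * p0 * (evM t wp).conjTranspose = evM t p := by
    intro t
    have := congrArg (evM t) wp4
    rwa [evM_mul, evM_mul, evM_cM, evM_conjTranspose] at this
  have wq4t : ∀ t, evM t wq * q0 * (evM t wq).conjTranspose = evM t q := by
    intro t
    have := congrArg (evM t) wq4
    rwa [evM_mul, evM_mul, evM_cM, evM_conjTranspose] at this
  have apa : a.conjTranspose * p0 = a.conjTranspose := by
    rw [← haa, ← Matrix.mul_assoc, haa']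
    have := congrArg conjTranspose haE
    rwa [conjTranspose_mul, EE_star] at this
  refine ⟨V, ?_, ?_, ?_, ?_, ?_⟩
  · apply evM_ext
    intro t
    rw [evM_mul, evM_conjTranspose, hVt]
    simp only [conjTranspose_mul, conjTranspose_conjTranspose]
    calc evM t wp * (a * ((evM t (LE L)).conjTranspose * b.conjTranspose) *
            (evM t wq).conjTranspose) *
            (evM t wq * (b * evM t (LE L) * a.conjTranspose) * (evM t wp).conjTranspose)
        = evM t wp * a * (evM t (LE L)).conjTranspose * b.conjTranspose *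
            ((evM t wq).conjTranspose * evM t wq) * b * evM t (LE L) * a.conjTranspose *
            (evM t wp).conjTranspose := by simp only [Matrix.mul_assoc]
      _ = evM t wp * (a * (((evM t (LE L)).conjTranspose * (b.conjTranspose * b) * evM t (LE L)) *
            a.conjTranspose)) * (evM t wp).conjTranspose := by
          rw [wqt, Matrix.mul_one]; simp only [Matrix.mul_assoc]
      _ = evM t wp * (a * (EE (Fin r) * a.conjTranspose)) * (evM t wp).conjTranspose := by
          rw [hbb', Matrix.mul_assoc ((evM t (LE L)).conjTranspose)]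
          have h5 : EE (Fin r) * evM t (LE L) = evM t (LE L) := by
            rw [evM_LE, ← mapE_one, ← mapE_mul, Matrix.one_mul]
          rw [h5, hLE1]
      _ = evM t p := by rw [← Matrix.mul_assoc a, haE, haa, wp4t]
  · apply evM_ext
    intro t
    rw [evM_mul, evM_conjTranspose, hVt]
    simp only [conjTranspose_mul, conjTranspose_conjTranspose]
    calc evM t wq * (b * evM t (LE L) * a.conjTranspose) * (evM t wp).conjTranspose *
            (evM t wp * (a * ((evM t (LE L)).conjTranspose * b.conjTranspose) *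
            (evM t wq).conjTranspose))
        = evM t wq * b * evM t (LE L) * a.conjTranspose *
            ((evM t wp).conjTranspose * evM t wp) * a * (evM t (LE L)).conjTranspose *
            b.conjTranspose * (evM t wq).conjTranspose := by simp only [Matrix.mul_assoc]
      _ = evM t wq * (b * ((evM t (LE L) * (a.conjTranspose * a)) *
            (evM t (LE L)).conjTranspose) * b.conjTranspose) * (evM t wq).conjTranspose := by
          rw [wpt, Matrix.mul_one]; simp only [Matrix.mul_assoc]
      _ = evM t wq * (b * EE (Fin r) * b.conjTranspose) * (evM t wq).conjTranspose := by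
          rw [haa', hbaE, hLE2]
      _ = evM t q := by rw [hbE, hbb, wq4t]
  · rw [hVt, wq3, wp3, Matrix.one_mul, conjTranspose_one, Matrix.mul_one, evM_LE, L3, mapE_one,
      hbE, hb, Matrix.mul_assoc, haa, h03]
  · rw [hVt, evM_LE, L4, hU]
    show Wq * (b * c * a.conjTranspose) * Wp.conjTranspose = v1
    rw [hc]
    calc Wq * (b * (b.conjTranspose * y1 * a) * a.conjTranspose) * Wp.conjTranspose
        = Wq * (((b * b.conjTranspose) * y1) * (a * a.conjTranspose)) * Wp.conjTranspose := by
          simp only [Matrix.mul_assoc]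
      _ = Wq * (Wq.conjTranspose * v1 * Wp) * Wp.conjTranspose := by rw [hbb, haa, qy, y1p, hy1]
      _ = (Wq * Wq.conjTranspose) * v1 * (Wp * Wp.conjTranspose) := by
          simp only [Matrix.mul_assoc]
      _ = v1 := by rw [Wq2, Wp2, Matrix.one_mul, Matrix.mul_one]
  · apply evM_ext
    intro t
    rw [evM_mul, hVt, ← wp4t t]
    calc evM t wq * (b * evM t (LE L) * a.conjTranspose) * (evM t wp).conjTranspose *
            (evM t wp * p0 * (evM t wp).conjTranspose)
        = evM t wq * (b * evM t (LE L) * a.conjTranspose) *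
            (((evM t wp).conjTranspose * evM t wp) * p0) * (evM t wp).conjTranspose := by
          simp only [Matrix.mul_assoc]
      _ = evM t wq * (b * evM t (LE L) * (a.conjTranspose * p0)) * (evM t wp).conjTranspose := by
          rw [wpt, Matrix.one_mul]; simp only [Matrix.mul_assoc]
      _ = _ := by rw [apa]

end Pool.Agent.H494R3
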