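import Mathlib
import Pool.Agent.H494R3.PathLem

set_option autoImplicit false
set_option linter.style.haveILetI false
set_option linter.unusedVariables false

namespace Pool.Agent.H494R3

open InnerProductSpace Matrix
open scoped CStarAlgebra ComplexOrder unitInterval

/-- homomorphisms between simplicial monoids -/
abbrev Hm (m n : ℕ) : Type := (Fin m → ℕ) →+ (Fin n → ℕ)

/-- index type: a composable pair out of `n` and a coordinate of the final target -/
structure Ix (n : ℕ) : Type where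
  m : ℕ
  m' : ℕ
  f : Hm n m
  g : Hm m m'
  j : Fin m'

instance (n : ℕ) : TopologicalSpace (Ix n) := ⊥
instance (n : ℕ) : DiscreteTopology (Ix n) := ⟨rfl⟩

/-- ambient C*-algebra -/
def Amb (n : ℕ) : Type := BoundedContinuousFunction (Ix n × I) BB

noncomputable instance (n : ℕ) : NonUnitalCStarAlgebra (Amb n) :=
  inferInstanceAs (NonUnitalCStarAlgebra (BoundedContinuousFunction (Ix n × I) BB))

/-- the underlying bounded continuous function -/
def Amb.toB {n : ℕ} (x : Amb n) : BoundedContinuousFunction (Ix n × I) BB := x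

/-- evaluation -/
noncomputable def Amb.ev {n : ℕ} (x : Amb n) (z : Ix n × I) : BB := x.toB z

lemma Amb.ev_add {n : ℕ} (x y : Amb n) (z : Ix n × I) : (x + y).ev z = x.ev z + y.ev z := rfl
lemma Amb.ev_mul {n : ℕ} (x y : Amb n) (z : Ix n × I) : (x * y).ev z = x.ev z * y.ev z := rfl
lemma Amb.ev_smul {n : ℕ} (c : ℂ) (x : Amb n) (z : Ix n × I) : (c • x).ev z = c • x.ev z := rfl
lemma Amb.ev_star {n : ℕ} (x : Amb n) (z : Ix n × I) : (star x).ev z = star (x.ev z) := rfl
lemma Amb.ev_zero {n : ℕ} (z : Ix n × I) : (0 : Amb n).ev z = 0 := rfl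

lemma Amb.ext' {n : ℕ} {x y : Amb n} (h : ∀ z, x.ev z = y.ev z) : x = y :=
  BoundedContinuousFunction.ext (f := x.toB) (g := y.toB) h

lemma Amb.continuous_ev {n : ℕ} (z : Ix n × I) : Continuous (fun x : Amb n => x.ev z) :=
  (BoundedContinuousFunction.lipschitz_eval_const (β := BB) z).continuous

/-- multiplicities of `g` into coordinate `j` -/
def mult {m m' : ℕ} (g : Hm m m') (j : Fin m') : Fin m → ℕ := fun i => g (Pi.single i 1) j

/-- The index of the `f`-component (as the endpoint of a path). -/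
def Ix.base {n : ℕ} {m : ℕ} (f : Hm n m) (i : Fin m) : Ix n := ⟨m, m, f, AddMonoidHom.id _, i⟩

/-- the defining conditions of the algebra `A n` -/
def Cond {n : ℕ} (x : Ix n × I → BB) : Prop :=
  (∀ a : Ix n, ∀ t : I, IsK (x (a, t))) ∧
  (∀ a : Ix n, x (a, 1) = x (Ix.base (a.g.comp a.f) a.j, 1)) ∧
  (∀ a : Ix n, x (a, 0) = Phi (mult a.g a.j) (fun i => x (Ix.base a.f i, 1)))

/-- the C*-algebra attached to `n` -/
noncomputable def Alg (n : ℕ) : NonUnitalStarSubalgebra ℂ (Amb n) where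
  carrier := {x | Cond x.ev}
  add_mem' := by
    rintro x y ⟨h1, h2, h3⟩ ⟨h4, h5, h6⟩
    refine ⟨?_, ?_, ?_⟩
    · intro a t
      exact (h1 a t).add (h4 a t)
    · intro a
      simp only [Amb.ev_add]
      rw [h2 a, h5 a]
    · intro a
      simp only [Amb.ev_add]
      rw [h3 a, h6 a, Phi_add]
  zero_mem' := by
    refine ⟨?_, ?_, ?_⟩
    · intro a t
      exact IsK.zero
    · intro a
      rfl
    · intro a
      simp only [Amb.ev_zero]
      rw [Phi_zero]
  mul_mem' := by
    rintro x y ⟨h1, h2, h3⟩ ⟨h4, h5, h6⟩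
    refine ⟨?_, ?_, ?_⟩
    · intro a t
      exact (h4 a t).mul_left _
    · intro a
      simp only [Amb.ev_mul]
      rw [h2 a, h5 a]
    · intro a
      simp only [Amb.ev_mul]
      rw [h3 a, h6 a, Phi_mul]
  smul_mem' := by
    rintro c x ⟨h1, h2, h3⟩
    refine ⟨?_, ?_, ?_⟩
    · intro a t
      exact (h1 a t).smul c
    · intro a
      simp only [Amb.ev_smul]
      rw [h2 a]
    · intro a
      simp only [Amb.ev_smul]
      rw [h3 a, Phi_smul]
  star_mem' := by
    rintro x ⟨h1, h2, h3⟩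
    refine ⟨?_, ?_, ?_⟩
    · intro a t
      exact (h1 a t).star
    · intro a
      simp only [Amb.ev_star]
      rw [h2 a]
    · intro a
      simp only [Amb.ev_star]
      rw [h3 a, Phi_star]

lemma mem_Alg {n : ℕ} (x : Amb n) : x ∈ Alg n ↔ Cond x.ev := Iff.rfl

lemma isClosed_Alg (n : ℕ) : IsClosed ((Alg n : NonUnitalStarSubalgebra ℂ (Amb n)) : Set (Amb n)) := by
  have hev : ∀ z : Ix n × I, Continuous (fun x : Amb n => x.ev z) := Amb.continuous_ev
  have h1 : IsClosed {x : Amb n | ∀ a : Ix n, ∀ t : I, IsK (x.ev (a, t))} := by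
    have : {x : Amb n | ∀ a : Ix n, ∀ t : I, IsK (x.ev (a, t))}
        = ⋂ a : Ix n, ⋂ t : I, (fun x : Amb n => x.ev (a, t)) ⁻¹' {T | IsK T} := by
      ext x
      simp only [Set.mem_ofPred_eq, Set.mem_iInter, Set.mem_preimage]
    rw [this]
    exact isClosed_iInter (fun a => isClosed_iInter (fun t => isClosed_isK.preimage (hev _)))
  have h2 : IsClosed {x : Amb n | ∀ a : Ix n, x.ev (a, 1) = x.ev (Ix.base (a.g.comp a.f) a.j, 1)} := by
    have : {x : Amb n | ∀ a : Ix n, x.ev (a, 1) = x.ev (Ix.base (a.g.comp a.f) a.j, 1)}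
        = ⋂ a : Ix n, {x : Amb n | x.ev (a, 1) = x.ev (Ix.base (a.g.comp a.f) a.j, 1)} := by
      ext x
      simp only [Set.mem_ofPred_eq, Set.mem_iInter]
    rw [this]
    exact isClosed_iInter (fun a => isClosed_eq (hev _) (hev _))
  have h3 : IsClosed {x : Amb n | ∀ a : Ix n,
      x.ev (a, 0) = Phi (mult a.g a.j) (fun i => x.ev (Ix.base a.f i, 1))} := by
    have : {x : Amb n | ∀ a : Ix n,
        x.ev (a, 0) = Phi (mult a.g a.j) (fun i => x.ev (Ix.base a.f i, 1))}
        = ⋂ a : Ix n, {x : Amb n |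
          x.ev (a, 0) = Phi (mult a.g a.j) (fun i => x.ev (Ix.base a.f i, 1))} := by
      ext x
      simp only [Set.mem_ofPred_eq, Set.mem_iInter]
    rw [this]
    apply isClosed_iInter
    intro a
    apply isClosed_eq (hev _)
    exact (Phi_continuous _).comp (continuous_pi (fun i => hev _))
  exact h1.inter (h2.inter h3)

/-- The C*-algebra as a type. -/
def AA (n : ℕ) : Type := Alg n

noncomputable instance (n : ℕ) : NonUnitalCStarAlgebra (AA n) :=
  NonUnitalStarSubalgebra.nonUnitalCStarAlgebra (Alg n) (h_closed := isClosed_Alg n)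

/-- evaluation on the algebra -/
noncomputable def AA.ev {n : ℕ} (x : AA n) (z : Ix n × I) : BB := Amb.ev (x.1 : Amb n) z

lemma AA.ev_add {n : ℕ} (x y : AA n) (z : Ix n × I) : (x + y).ev z = x.ev z + y.ev z := rfl
lemma AA.ev_mul {n : ℕ} (x y : AA n) (z : Ix n × I) : (x * y).ev z = x.ev z * y.ev z := rfl
lemma AA.ev_smul {n : ℕ} (c : ℂ) (x : AA n) (z : Ix n × I) : (c • x).ev z = c • x.ev z := rfl
lemma AA.ev_star {n : ℕ} (x : AA n) (z : Ix n × I) : (star x).ev z = star (x.ev z) := rfl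
lemma AA.ev_zero {n : ℕ} (z : Ix n × I) : (0 : AA n).ev z = 0 := rfl
lemma AA.ev_cond {n : ℕ} (x : AA n) : Cond x.ev := x.2

lemma AA.ext' {n : ℕ} {x y : AA n} (h : ∀ z, x.ev z = y.ev z) : x = y :=
  Subtype.ext (Amb.ext' h)

lemma AA.ev_sum {n : ℕ} {ρ : Type} (S : Finset ρ) (x : ρ → AA n) (z : Ix n × I) :
    (∑ a ∈ S, x a).ev z = ∑ a ∈ S, (x a).ev z := by
  classical
  induction S using Finset.induction_on with
  | empty => simp [AA.ev_zero]
  | insert a S ha ih =>
    rw [Finset.sum_insert ha, Finset.sum_insert ha, AA.ev_add, ih]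

/-- the path at an index -/
noncomputable def AA.path {n : ℕ} (x : AA n) (a : Ix n) : C(I, BB) :=
  ⟨fun t => x.ev (a, t), by
    have h : Continuous (Amb.toB (x.1 : Amb n)) := (Amb.toB (x.1 : Amb n)).continuous
    exact h.comp (by fun_prop)⟩

lemma AA.path_apply {n : ℕ} (x : AA n) (a : Ix n) (t : I) : x.path a t = x.ev (a, t) := rfl

/-- constructing an element from a uniformly bounded family of paths -/
noncomputable def AA.mk' {n : ℕ} (γ : Ix n → C(I, BB)) (C : ℝ) (hC : ∀ a t, ‖γ a t‖ ≤ C)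
    (h : Cond (fun z : Ix n × I => γ z.1 z.2)) : AA n :=
  ⟨(BoundedContinuousFunction.ofNormedAddCommGroup (fun z : Ix n × I => γ z.1 z.2)
    (by
      rw [continuous_prod_of_discrete_left]
      intro a
      exact (γ a).continuous) C (fun z => hC z.1 z.2) : BoundedContinuousFunction (Ix n × I) BB), h⟩

lemma AA.mk'_ev {n : ℕ} (γ : Ix n → C(I, BB)) (C : ℝ) (hC : ∀ a t, ‖γ a t‖ ≤ C)
    (h : Cond (fun z : Ix n × I => γ z.1 z.2)) (a : Ix n) (t : I) :
    (AA.mk' γ C hC h).ev (a, t) = γ a t := rfl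

/-- reindexing of the index types along a homomorphism -/
def Ix.pull {n m : ℕ} (h : Hm n m) (a : Ix m) : Ix n := ⟨a.m, a.m', a.f.comp h, a.g, a.j⟩

/-- reindexing as a continuous map -/
def pullC {n m : ℕ} (h : Hm n m) : C(Ix m × I, Ix n × I) :=
  ⟨fun z => (Ix.pull h z.1, z.2), by
    apply Continuous.prodMk
    · exact (continuous_of_discreteTopology (f := Ix.pull h)).comp continuous_fst
    · exact continuous_snd⟩

/-- reindexing of elements -/
noncomputable def Amb.pull {n m : ℕ} (h : Hm n m) (x : Amb n) : Amb m :=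
  (x.toB.compContinuous (pullC h) : BoundedContinuousFunction (Ix m × I) BB)

lemma Amb.pull_ev {n m : ℕ} (h : Hm n m) (x : Amb n) (a : Ix m) (t : I) :
    (x.pull h).ev (a, t) = x.ev (Ix.pull h a, t) := rfl

lemma pull_mem {n m : ℕ} (h : Hm n m) (x : Amb n) (hx : x ∈ Alg n) :
    x.pull h ∈ Alg m := by
  obtain ⟨h1, h2, h3⟩ := hx
  refine ⟨?_, ?_, ?_⟩
  · intro a t
    exact h1 _ _
  · intro a
    rw [Amb.pull_ev, Amb.pull_ev, h2]
    rfl
  · intro a
    simp only [Amb.pull_ev]
    rw [h3]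
    rfl

/-- the functor on morphisms -/
noncomputable def Fm {n m : ℕ} (h : Hm n m) : AA n →⋆ₙₐ[ℂ] AA m where
  toFun x := ⟨Amb.pull h x.1, pull_mem h x.1 x.2⟩
  map_smul' c x := AA.ext' (fun z => rfl)
  map_zero' := AA.ext' (fun z => rfl)
  map_add' x y := AA.ext' (fun z => rfl)
  map_mul' x y := AA.ext' (fun z => rfl)
  map_star' x := AA.ext' (fun z => rfl)

lemma Fm_ev {n m : ℕ} (h : Hm n m) (x : AA n) (a : Ix m) (t : I) :
    (Fm h x).ev (a, t) = x.ev (Ix.pull h a, t) := rfl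

lemma Fm_id (n : ℕ) : Fm (AddMonoidHom.id (Fin n → ℕ)) = NonUnitalStarAlgHom.id ℂ (AA n) := by
  ext x
  apply AA.ext'
  intro z
  rfl

lemma Fm_comp {n m l : ℕ} (f : Hm n m) (g : Hm m l) : Fm (g.comp f) = (Fm g).comp (Fm f) := by
  ext x
  apply AA.ext'
  intro z
  rfl

end Pool.Agent.H494R3
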