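import Mathlib
import Pool.Agent.H494R3.Alg

set_option autoImplicit false
set_option linter.style.haveILetI false
set_option linter.unusedVariables false

namespace Pool.Agent.H494R3

open InnerProductSpace Matrix
open scoped CStarAlgebra ComplexOrder unitInterval

/-- evaluation of matrices over `AA n` -/
noncomputable def evA {n : ℕ} {ι κ : Type} (z : Ix n × I) (p : Matrix ι κ (AA n)) : Matrix ι κ BB :=
  p.map (fun x => x.ev z)

/-- matrices of paths -/
noncomputable def pathA {n : ℕ} {ι κ : Type} (a : Ix n) (p : Matrix ι κ (AA n)) :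
    Matrix ι κ C(I, BB) := p.map (fun x => x.path a)

lemma evM_pathA {n : ℕ} {ι κ : Type} (a : Ix n) (t : I) (p : Matrix ι κ (AA n)) :
    evM t (pathA a p) = evA (a, t) p := by
  apply Matrix.ext
  intro i j
  rfl

lemma evA_mul {n : ℕ} {ι κ τ : Type} [Fintype κ] (z : Ix n × I) (p : Matrix ι κ (AA n))
    (q : Matrix κ τ (AA n)) : evA z (p * q) = evA z p * evA z q := by
  apply Matrix.ext
  intro i j
  simp only [evA, Matrix.map_apply, Matrix.mul_apply, AA.ev_sum, AA.ev_mul]

lemma evA_star {n : ℕ} {ι κ : Type} (z : Ix n × I) (p : Matrix ι κ (AA n)) :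
    evA z p.conjTranspose = (evA z p).conjTranspose := by
  apply Matrix.ext
  intro i j
  simp only [evA, Matrix.map_apply, Matrix.conjTranspose_apply, AA.ev_star]

lemma evA_ext {n : ℕ} {ι κ : Type} {p q : Matrix ι κ (AA n)} (h : ∀ z, evA z p = evA z q) :
    p = q := by
  apply Matrix.ext
  intro i j
  apply AA.ext'
  intro z
  exact congrFun (congrFun (h z) i) j

lemma evA_KProj {n k : ℕ} (z : Ix n × I) {p : Matrix (Fin k) (Fin k) (AA n)} (h1 : p * p = p)
    (h2 : p.conjTranspose = p) : KProj (evA z p) := by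
  refine ⟨by rw [← evA_mul, h1], by rw [← evA_star, h2], ?_⟩
  intro i j
  exact (p i j).ev_cond.1 z.1 z.2

lemma pathA_proj {n k : ℕ} (a : Ix n) {p : Matrix (Fin k) (Fin k) (AA n)} (h1 : p * p = p)
    (h2 : p.conjTranspose = p) :
    pathA a p * pathA a p = pathA a p ∧ (pathA a p).conjTranspose = pathA a p := by
  constructor
  · apply evM_ext
    intro t
    rw [evM_mul, evM_pathA, ← evA_mul, h1]
  · apply evM_ext
    intro t
    rw [evM_conjTranspose, evM_pathA, ← evA_star, h2]

/-- rank is constant along paths -/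
lemma rk_path {k : ℕ} (p : Matrix (Fin k) (Fin k) C(I, BB)) (hp : p * p = p)
    (hps : p.conjTranspose = p) (hK : ∀ t i j, IsK (evM t p i j)) :
    rk (evM 0 p) = rk (evM 1 p) := by
  have hKP : ∀ t, KProj (evM t p) := by
    intro t
    exact ⟨by rw [← evM_mul, hp], by rw [← evM_conjTranspose, hps], hK t⟩
  rw [rk_iff (hKP 0) (hKP 1)]
  obtain ⟨w, w1, w2, w3, w4⟩ := homot p hp hps
  refine ⟨evM 1 w * evM 0 p, ?_, ?_⟩
  · rw [conjTranspose_mul, (hKP 0).2.1]
    calc evM 0 p * (evM 1 w).conjTranspose * (evM 1 w * evM 0 p)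
        = evM 0 p * ((evM 1 w).conjTranspose * evM 1 w) * evM 0 p := by
          simp only [Matrix.mul_assoc]
      _ = evM 0 p := by
          rw [← evM_conjTranspose, ← evM_mul, w1, evM_one, Matrix.mul_one, (hKP 0).1]
  · rw [conjTranspose_mul, (hKP 0).2.1]
    have := congrArg (evM 1) w4
    rw [evM_mul, evM_mul, evM_cM, evM_conjTranspose] at this
    calc evM 1 w * evM 0 p * (evM 0 p * (evM 1 w).conjTranspose)
        = evM 1 w * (evM 0 p * evM 0 p) * (evM 1 w).conjTranspose := by
          simp only [Matrix.mul_assoc]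
      _ = evM 1 p := by rw [(hKP 0).1, this]

lemma hm_apply {m m' : ℕ} (g : Hm m m') (y : Fin m → ℕ) (j : Fin m') :
    g y j = ∑ i, mult g j i * y i := by
  have h : y = ∑ i, y i • (Pi.single i 1 : Fin m → ℕ) := by
    funext i
    rw [Finset.sum_apply]
    simp only [Pi.smul_apply, smul_eq_mul]
    rw [Finset.sum_eq_single i]
    · simp
    · intro b _ hb
      simp [Ne.symm hb]
    · simp
  conv_lhs => rw [h]
  rw [map_sum, Finset.sum_apply]
  apply Finset.sum_congr rfl
  intro i _
  rw [map_nsmul, Pi.smul_apply, smul_eq_mul, mult, mul_comm]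

/-- index of the path joining the identity component to the `f` component -/
def Ix.idf {n m : ℕ} (f : Hm n m) (i : Fin m) : Ix n := ⟨n, m, AddMonoidHom.id _, f, i⟩

/-- the invariant -/
noncomputable def phi (n k : ℕ) (p : Matrix (Fin k) (Fin k) (AA n)) : Fin n → ℕ :=
  fun j => rk (evA (Ix.base (AddMonoidHom.id (Fin n → ℕ)) j, 1) p)

lemma evA_one {n k l : ℕ} (p : Matrix (Fin k) (Fin l) (AA n)) (a : Ix n) :
    evA (a, 1) p = evA (Ix.base (a.g.comp a.f) a.j, 1) p := by
  apply Matrix.ext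
  intro i j
  exact (p i j).ev_cond.2.1 a

lemma evA_zero {n k l : ℕ} (p : Matrix (Fin k) (Fin l) (AA n)) (a : Ix n) :
    evA (a, 0) p = PhiM (mult a.g a.j) (fun i => evA (Ix.base a.f i, 1) p) := by
  apply Matrix.ext
  intro i j
  exact (p i j).ev_cond.2.2 a

lemma rk_base {n k : ℕ} {p : Matrix (Fin k) (Fin k) (AA n)} (h1 : p * p = p)
    (h2 : p.conjTranspose = p) {m : ℕ} (f : Hm n m) (i : Fin m) :
    rk (evA (Ix.base f i, 1) p) = f (phi n k p) i := by
  have h3 := rk_path (pathA (Ix.idf f i) p) (pathA_proj _ h1 h2).1 (pathA_proj _ h1 h2).2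
    (fun t a b => by rw [evM_pathA]; exact (evA_KProj _ h1 h2).2.2 a b)
  rw [evM_pathA, evM_pathA, evA_one, evA_zero, rk_PhiM _ (fun j => evA_KProj _ h1 h2)] at h3
  rw [hm_apply]
  exact h3.symm

lemma phi_of_equiv {n k l : ℕ} {p : Matrix (Fin k) (Fin k) (AA n)}
    {q : Matrix (Fin l) (Fin l) (AA n)} (hp : p * p = p) (hps : p.conjTranspose = p)
    (hq : q * q = q) (hqs : q.conjTranspose = q)
    (h : ∃ v : Matrix (Fin l) (Fin k) (AA n), v.conjTranspose * v = p ∧ v * v.conjTranspose = q) :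
    phi n k p = phi n l q := by
  obtain ⟨v, h1, h2⟩ := h
  funext j
  unfold phi
  rw [rk_iff (evA_KProj _ hp hps) (evA_KProj _ hq hqs)]
  refine ⟨evA (Ix.base (AddMonoidHom.id (Fin n → ℕ)) j, 1) v, ?_, ?_⟩
  · rw [← evA_star, ← evA_mul, h1]
  · rw [← evA_star, ← evA_mul, h2]

lemma equiv_of_phi {n k l : ℕ} {p : Matrix (Fin k) (Fin k) (AA n)}
    {q : Matrix (Fin l) (Fin l) (AA n)} (hp : p * p = p) (hps : p.conjTranspose = p)
    (hq : q * q = q) (hqs : q.conjTranspose = q) (h : phi n k p = phi n l q) :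
    ∃ v : Matrix (Fin l) (Fin k) (AA n), v.conjTranspose * v = p ∧ v * v.conjTranspose = q := by
  have hbase : ∀ (m : ℕ) (f : Hm n m) (i : Fin m),
      ∃ v : Matrix (Fin l) (Fin k) BB, v.conjTranspose * v = evA (Ix.base f i, 1) p ∧
        v * v.conjTranspose = evA (Ix.base f i, 1) q ∧ v * evA (Ix.base f i, 1) p = v ∧
        ((∀ a b, IsK (evA (Ix.base f i, 1) p a b)) → ∀ a b, IsK (v a b)) := by
    intro m f i
    have h1 : MvN (evA (Ix.base f i, 1) p) (evA (Ix.base f i, 1) q) := by
      rw [← rk_iff (evA_KProj _ hp hps) (evA_KProj _ hq hqs), rk_base hp hps, rk_base hq hqs, h]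
    exact h1.norm (evA_KProj _ hp hps).1 (evA_KProj _ hp hps).2.1 (evA_KProj _ hq hqs).1
  choose V V1 V2 V3 V4 using hbase
  have hpath : ∀ a : Ix n, ∃ v : Matrix (Fin l) (Fin k) C(I, BB),
      v.conjTranspose * v = pathA a p ∧ v * v.conjTranspose = pathA a q ∧
      evM 0 v = PhiM (mult a.g a.j) (fun i => V a.m a.f i) ∧
      evM 1 v = V a.m' (a.g.comp a.f) a.j ∧ v * pathA a p = v := by
    intro a
    apply path_lemma (pathA a p) (pathA a q) (pathA_proj _ hp hps).1 (pathA_proj _ hp hps).2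
      (pathA_proj _ hq hqs).1 (pathA_proj _ hq hqs).2
    · intro i j
      rw [evM_pathA]
      exact (evA_KProj _ hp hps).2.2 i j
    · rw [evM_pathA, evA_zero, ← PhiM_conjTranspose, ← PhiM_mul]
      congr 1
      funext i
      exact V1 _ _ _
    · rw [evM_pathA, evA_zero, ← PhiM_conjTranspose, ← PhiM_mul]
      congr 1
      funext i
      exact V2 _ _ _
    · rw [evM_pathA, evA_zero, ← PhiM_mul]
      congr 1
      funext i
      exact V3 _ _ _
    · rw [evM_pathA, evA_one]
      exact V1 _ _ _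
    · rw [evM_pathA, evA_one]
      exact V2 _ _ _
    · rw [evM_pathA, evA_one]
      exact V3 _ _ _
  choose W W1 W2 W3 W4 W5 using hpath
  have hbound : ∀ (b : Fin l) (c : Fin k) (a : Ix n) (t : I), ‖W a b c t‖ ≤ 1 := by
    intro b c a t
    have h1 := entry_norm_le (A := C(I, BB)) (W a) (pathA a p) (W1 a) (pathA_proj _ hp hps).1
      (pathA_proj _ hp hps).2 b c
    exact (ContinuousMap.norm_coe_le_norm (W a b c) t).trans h1
  have hcond : ∀ (b : Fin l) (c : Fin k), Cond (fun z : Ix n × I => W z.1 b c z.2) := by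
    intro b c
    refine ⟨?_, ?_, ?_⟩
    · intro a t
      have h1 := congrFun (congrFun (congrArg (evM t) (W5 a)) b) c
      rw [evM_mul, evM_pathA, Matrix.mul_apply] at h1
      have h2 : W a b c t = evM t (W a) b c := rfl
      show IsK (W a b c t)
      rw [h2, ← h1]
      exact IsK.sum _ _ (fun d _ => ((evA_KProj _ hp hps).2.2 d c).mul_left _)
    · intro a
      have h1 := congrFun (congrFun (W4 a) b) c
      have h2 := congrFun (congrFun (W4 (Ix.base (a.g.comp a.f) a.j)) b) c
      exact h1.trans h2.symm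
    · intro a
      have h1 := congrFun (congrFun (W3 a) b) c
      have h2 : ∀ i, W (Ix.base a.f i) b c 1 = V a.m a.f i b c :=
        fun i => congrFun (congrFun (W4 (Ix.base a.f i)) b) c
      show W a b c 0 = Phi _ (fun i => W (Ix.base a.f i) b c 1)
      simp only [h2]
      exact h1
  let v : Matrix (Fin l) (Fin k) (AA n) :=
    Matrix.of fun b c => AA.mk' (fun a => W a b c) 1 (hbound b c) (hcond b c)
  have hv : ∀ (a : Ix n) (t : I), evA (a, t) v = evM t (W a) := by
    intro a t
    apply Matrix.ext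
    intro b c
    rfl
  refine ⟨v, ?_, ?_⟩
  · apply evA_ext
    rintro ⟨a, t⟩
    rw [evA_mul, evA_star, hv, ← evM_conjTranspose, ← evM_mul, W1, evM_pathA]
  · apply evA_ext
    rintro ⟨a, t⟩
    rw [evA_mul, evA_star, hv, ← evM_conjTranspose, ← evM_mul, W2, evM_pathA]

lemma phi_block {n k l : ℕ} {p : Matrix (Fin k) (Fin k) (AA n)}
    {q : Matrix (Fin l) (Fin l) (AA n)} (hp : p * p = p) (hps : p.conjTranspose = p)
    (hq : q * q = q) (hqs : q.conjTranspose = q) :
    phi n (k + l) (Matrix.reindex finSumFinEquiv finSumFinEquiv (Matrix.fromBlocks p 0 0 q))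
      = phi n k p + phi n l q := by
  funext j
  rw [Pi.add_apply]
  unfold phi
  rw [← rk_block (evA_KProj _ hp hps) (evA_KProj _ hq hqs)]
  congr 1
  apply Matrix.ext
  intro a b
  simp only [evA, Matrix.reindex_apply, Matrix.submatrix_apply, Matrix.map_apply]
  rcases finSumFinEquiv.symm a with c | c <;> rcases finSumFinEquiv.symm b with d | d <;> rfl

lemma phi_natural {m n k : ℕ} (f : Hm m n) {p : Matrix (Fin k) (Fin k) (AA m)} (hp : p * p = p)
    (hps : p.conjTranspose = p) : phi n k (p.map (fun x => Fm f x)) = f (phi m k p) := by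
  funext j
  rw [← rk_base hp hps]
  unfold phi
  congr 1

end Pool.Agent.H494R3
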