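import Mathlib
import Pool.Agent.H494R3.Fin

set_option autoImplicit false
set_option linter.style.haveILetI false
set_option linter.unusedVariables false

namespace Pool.Agent.H494R3

open InnerProductSpace Matrix
open scoped CStarAlgebra ComplexOrder unitInterval

/-- one by one matrices -/
def M1 (b : BB) : Matrix (Fin 1) (Fin 1) BB := fun _ _ => b

lemma M1_mul (b c : BB) : M1 b * M1 c = M1 (b * c) := by
  apply Matrix.ext
  intro i j
  simp [M1, Matrix.mul_apply]

lemma M1_star (b : BB) : (M1 b).conjTranspose = M1 (star b) := by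
  apply Matrix.ext
  intro i j
  rfl

lemma M1_EE : EE (Fin 1) = M1 e0 := by
  apply Matrix.ext
  intro i j
  have : i = j := Subsingleton.elim _ _
  subst this
  simp [EE, M1]

lemma M1_eta (v : Matrix (Fin 1) (Fin 1) BB) : v = M1 (v 0 0) := by
  apply Matrix.ext
  intro i j
  have h1 : i = 0 := Subsingleton.elim _ _
  have h2 : j = 0 := Subsingleton.elim _ _
  subst h1 h2
  rfl

lemma EE1_KProj : KProj (EE (Fin 1)) := ⟨EE_mul _, EE_star _, EE_K _⟩

lemma rk_EE1 : rk (EE (Fin 1)) = 1 := by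
  have h : MvN (EE (Fin 1)) (EE (Fin 1)) := ⟨EE (Fin 1), by rw [EE_star, EE_mul], by rw [EE_star, EE_mul]⟩
  have := rk_eq EE1_KProj h
  simpa using this

/-- standard projection of rank `r` -/
noncomputable def Er (r : ℕ) : BB := Phi (fun _ : Fin 1 => r) (fun _ => e0)

lemma M1_Er (r : ℕ) : M1 (Er r) = PhiM (fun _ : Fin 1 => r) (fun _ => EE (Fin 1)) := by
  apply Matrix.ext
  intro i j
  rw [M1_EE]
  rfl

lemma Er_KProj (r : ℕ) : KProj (M1 (Er r)) := by
  rw [M1_Er]
  exact PhiM_KProj _ (fun _ => EE1_KProj)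

lemma rk_Er (r : ℕ) : rk (M1 (Er r)) = r := by
  rw [M1_Er, rk_PhiM _ (fun _ => EE1_KProj)]
  simp [rk_EE1]

lemma KProj_M1 {b : BB} (h : KProj (M1 b)) : b * b = b ∧ star b = b ∧ IsK b := by
  obtain ⟨h1, h2, h3⟩ := h
  rw [M1_mul] at h1
  rw [M1_star] at h2
  exact ⟨congrFun (congrFun h1 0) 0, congrFun (congrFun h2 0) 0, h3 0 0⟩

/-- the column of the rotation path -/
noncomputable def yy (q w : BB) : Fin 2 → ℝ → BB :=
  ![fun t => ((1 - t : ℝ) : ℂ) • q + (t : ℂ) • w, fun t => ((Real.sqrt (t * (1 - t)) : ℝ) : ℂ) • (w - q)]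

lemma yy_zero (q w : BB) : yy q w 0 0 = q ∧ yy q w 1 0 = 0 := by
  constructor
  · show (((1 - (0:ℝ) : ℝ) : ℂ) • q + (((0:ℝ)) : ℂ) • w) = q
    rw [sub_zero, Complex.ofReal_one, one_smul, Complex.ofReal_zero, zero_smul, add_zero]
  · show ((Real.sqrt ((0:ℝ) * (1 - 0)) : ℝ) : ℂ) • (w - q) = 0
    rw [zero_mul, Real.sqrt_zero, Complex.ofReal_zero, zero_smul]

lemma yy_one (q w : BB) : yy q w 0 1 = w ∧ yy q w 1 1 = 0 := by
  constructor
  · show (((1 - (1:ℝ) : ℝ) : ℂ) • q + (((1:ℝ)) : ℂ) • w) = w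
    rw [sub_self, Complex.ofReal_one, one_smul, Complex.ofReal_zero, zero_smul, zero_add]
  · show ((Real.sqrt ((1:ℝ) * (1 - 1)) : ℝ) : ℂ) • (w - q) = 0
    rw [sub_self, mul_zero, Real.sqrt_zero, Complex.ofReal_zero, zero_smul]

lemma yy_cont (q w : BB) (i : Fin 2) : Continuous (yy q w i) := by
  fin_cases i
  · simp only [yy]
    show Continuous (fun t : ℝ => ((1 - t : ℝ) : ℂ) • q + (t : ℂ) • w)
    fun_prop
  · simp only [yy]
    show Continuous (fun t : ℝ => ((Real.sqrt (t * (1 - t)) : ℝ) : ℂ) • (w - q))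
    fun_prop

lemma yy_sum (q w : BB) (hq : q * q = q) (hqs : star q = q) (hw : star w * w = q)
    (hwq : w * q = w) (t : ℝ) (ht0 : 0 ≤ t) (ht1 : t ≤ 1) :
    ∑ i, star (yy q w i t) * yy q w i t = q := by
  have hqw : q * star w = star w := by
    have := congrArg star hwq
    rwa [star_mul, hqs] at this
  rw [Fin.sum_univ_two]
  simp only [yy, Matrix.cons_val_zero, Matrix.cons_val_one]
  set s : ℝ := Real.sqrt (t * (1 - t)) with hs
  have hss : s * s = t * (1 - t) := Real.mul_self_sqrt (mul_nonneg ht0 (by linarith))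
  have e1 : star (((1 - t : ℝ) : ℂ) • q + (t : ℂ) • w) = ((1 - t : ℝ) : ℂ) • q + (t : ℂ) • star w := by
    rw [star_add, star_smul, star_smul, hqs]
    simp
  have e2 : star ((s : ℂ) • (w - q)) = (s : ℂ) • (star w - q) := by
    rw [star_smul, star_sub, hqs]
    simp
  rw [e1, e2]
  have e3 : (((1 - t : ℝ) : ℂ) • q + (t : ℂ) • star w) * (((1 - t : ℝ) : ℂ) • q + (t : ℂ) • w)
      = (((1 - t : ℝ) : ℂ) * ((1 - t : ℝ) : ℂ) + (t : ℂ) * (t : ℂ)) • q
        + (((1 - t : ℝ) : ℂ) * (t : ℂ)) • (q * w + star w * q) := by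
    rw [add_mul, mul_add, mul_add, smul_mul_smul_comm, smul_mul_smul_comm, smul_mul_smul_comm,
      smul_mul_smul_comm, hq, hw, smul_add, add_smul, mul_comm (t : ℂ) (((1 - t : ℝ) : ℂ))]
    abel
  have e4 : ((s : ℂ) • (star w - q)) * ((s : ℂ) • (w - q))
      = ((s : ℂ) * (s : ℂ)) • (q + q) - ((s : ℂ) * (s : ℂ)) • (q * w + star w * q) := by
    rw [smul_mul_smul_comm, ← smul_sub]
    congr 1
    rw [sub_mul, mul_sub, mul_sub, hq, hw]
    abel
  rw [e3, e4]
  have h5 : (s : ℂ) * (s : ℂ) = ((1 - t : ℝ) : ℂ) * (t : ℂ) := by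
    rw [← Complex.ofReal_mul, hss]
    push_cast
    ring
  rw [h5, smul_add (((1 - t : ℝ) : ℂ) * (t : ℂ)) q q]
  have h6 : (((1 - t : ℝ) : ℂ) * ((1 - t : ℝ) : ℂ) + (t : ℂ) * (t : ℂ)) • q
        + (((1 - t : ℝ) : ℂ) * (t : ℂ)) • (q * w + star w * q)
        + ((((1 - t : ℝ) : ℂ) * (t : ℂ)) • q + (((1 - t : ℝ) : ℂ) * (t : ℂ)) • q
          - (((1 - t : ℝ) : ℂ) * (t : ℂ)) • (q * w + star w * q))
      = ((((1 - t : ℝ) : ℂ) * ((1 - t : ℝ) : ℂ) + (t : ℂ) * (t : ℂ))
        + ((1 - t : ℝ) : ℂ) * (t : ℂ) + ((1 - t : ℝ) : ℂ) * (t : ℂ)) • q := by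
    generalize ((1 - t : ℝ) : ℂ) = A
    generalize (q * w + star w * q) = X
    module
  rw [h6]
  have h7 : (((1 - t : ℝ) : ℂ) * ((1 - t : ℝ) : ℂ) + (t : ℂ) * (t : ℂ))
        + ((1 - t : ℝ) : ℂ) * (t : ℂ) + ((1 - t : ℝ) : ℂ) * (t : ℂ) = 1 := by
    push_cast
    ring
  rw [h7, one_smul]

lemma yy_q (q w : BB) (hq : q * q = q) (hwq : w * q = w) (t : ℝ) (i : Fin 2) :
    yy q w i t * q = yy q w i t := by
  fin_cases i
  · show (((1 - t : ℝ) : ℂ) • q + (t : ℂ) • w) * q = _
    rw [add_mul, smul_mul_assoc, smul_mul_assoc, hq, hwq]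
    rfl
  · show (((Real.sqrt (t * (1 - t)) : ℝ) : ℂ) • (w - q)) * q = _
    rw [smul_mul_assoc, sub_mul, hq, hwq]
    rfl

/-- surjectivity -/
lemma phi_surj (n : ℕ) (x : Fin n → ℕ) : ∃ (k : ℕ) (p : Matrix (Fin k) (Fin k) (AA n)),
    p * p = p ∧ p.conjTranspose = p ∧ phi n k p = x := by
  classical
  -- the initial projections
  have hw : ∀ a : Ix n, ∃ w : BB,
      star w * w = Phi (mult a.g a.j) (fun i => Er (a.f x i)) ∧
      w * star w = Er (a.g (a.f x) a.j) ∧
      w * Phi (mult a.g a.j) (fun i => Er (a.f x i)) = w ∧ IsK w := by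
    intro a
    have h1 : M1 (Phi (mult a.g a.j) (fun i => Er (a.f x i)))
        = PhiM (mult a.g a.j) (fun i => M1 (Er (a.f x i))) := by
      apply Matrix.ext
      intro i j
      rfl
    have h2 : KProj (M1 (Phi (mult a.g a.j) (fun i => Er (a.f x i)))) := by
      rw [h1]
      exact PhiM_KProj _ (fun i => Er_KProj _)
    have h3 : rk (M1 (Phi (mult a.g a.j) (fun i => Er (a.f x i)))) = a.g (a.f x) a.j := by
      rw [h1, rk_PhiM _ (fun i => Er_KProj _), hm_apply]
      simp only [rk_Er]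
    have h4 : MvN (M1 (Phi (mult a.g a.j) (fun i => Er (a.f x i)))) (M1 (Er (a.g (a.f x) a.j))) := by
      rw [← rk_iff h2 (Er_KProj _), h3, rk_Er]
    obtain ⟨v, v1, v2, v3, v4⟩ := h4.norm h2.1 h2.2.1 (Er_KProj _).1
    rw [M1_eta v] at v1 v2 v3
    rw [M1_star, M1_mul] at v1 v2
    rw [M1_mul] at v3
    exact ⟨v 0 0, congrFun (congrFun v1 0) 0, congrFun (congrFun v2 0) 0,
      congrFun (congrFun v3 0) 0, v4 h2.2.2 0 0⟩
  choose w w1 w2 w3 w4 using hw
  let q : Ix n → BB := fun a => Phi (mult a.g a.j) (fun i => Er (a.f x i))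
  have hqK : ∀ a : Ix n, KProj (M1 (q a)) := by
    intro a
    have h1 : M1 (q a) = PhiM (mult a.g a.j) (fun i => M1 (Er (a.f x i))) := by
      apply Matrix.ext
      intro i j
      rfl
    rw [h1]
    exact PhiM_KProj _ (fun i => Er_KProj _)
  have hq1 : ∀ a, q a * q a = q a := fun a => (KProj_M1 (hqK a)).1
  have hq2 : ∀ a, star (q a) = q a := fun a => (KProj_M1 (hqK a)).2.1
  have hq3 : ∀ a, IsK (q a) := fun a => (KProj_M1 (hqK a)).2.2
  have hyK : ∀ a i t, IsK (yy (q a) (w a) i t) := by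
    intro a i t
    rw [← yy_q (q a) (w a) (hq1 a) (w3 a) t i]
    exact (hq3 a).mul_left _
  -- paths
  let γ : Fin 2 → Fin 2 → Ix n → C(I, BB) := fun i j a =>
    ⟨fun t => yy (q a) (w a) i t * star (yy (q a) (w a) j t), by
      have h1 := (yy_cont (q a) (w a) i).comp (continuous_subtype_val (p := fun t => t ∈ I))
      have h2 := (yy_cont (q a) (w a) j).comp (continuous_subtype_val (p := fun t => t ∈ I))
      exact h1.mul h2.star⟩
  have hγ : ∀ i j a t, γ i j a t = yy (q a) (w a) i t * star (yy (q a) (w a) j t) :=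
    fun i j a t => rfl
  have hqn : ∀ a, ‖q a‖ ≤ 1 := by
    intro a
    exact IsStarProjection.norm_le (q a) ⟨hq1 a, hq2 a⟩
  have hyn : ∀ a i (t : I), ‖yy (q a) (w a) i t‖ ≤ 1 := by
    intro a i t
    have h1 := yy_sum (q a) (w a) (hq1 a) (hq2 a) (w1 a) (w3 a) t t.2.1 t.2.2
    -- use the column matrix
    let V : Matrix (Fin 2) (Fin 1) BB := Matrix.of fun i _ => yy (q a) (w a) i t
    have h2 : V.conjTranspose * V = M1 (q a) := by
      apply Matrix.ext
      intro b c
      rw [Matrix.mul_apply]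
      exact h1
    exact entry_norm_le V (M1 (q a)) h2 (hqK a).1 (hqK a).2.1 i 0
  have hγn : ∀ i j a (t : I), ‖γ i j a t‖ ≤ 1 := by
    intro i j a t
    rw [hγ]
    calc ‖yy (q a) (w a) i t * star (yy (q a) (w a) j t)‖
        ≤ ‖yy (q a) (w a) i t‖ * ‖star (yy (q a) (w a) j t)‖ := norm_mul_le _ _
      _ ≤ 1 * 1 := by
          have h5 : ‖star (yy (q a) (w a) j t)‖ = ‖yy (q a) (w a) j t‖ := by
            rw [ContinuousLinearMap.star_eq_adjoint]
            exact LinearIsometryEquiv.norm_map _ _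
          rw [h5]
          exact mul_le_mul (hyn a i t) (hyn a j t) (norm_nonneg _) zero_le_one
      _ = 1 := one_mul 1
  have hγ0 : ∀ i j a, γ i j a 0 = if i = 0 ∧ j = 0 then q a else 0 := by
    intro i j a
    rw [hγ]
    obtain ⟨h1, h2⟩ := yy_zero (q a) (w a)
    have h3 : ((0 : I) : ℝ) = 0 := rfl
    rw [h3]
    fin_cases i <;> fin_cases j <;> simp [h1, h2, hq1, hq2]
  have hγ1 : ∀ i j a, γ i j a 1 = if i = 0 ∧ j = 0 then Er (a.g (a.f x) a.j) else 0 := by
    intro i j a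
    rw [hγ]
    obtain ⟨h1, h2⟩ := yy_one (q a) (w a)
    have h3 : ((1 : I) : ℝ) = 1 := rfl
    rw [h3]
    fin_cases i <;> fin_cases j <;> simp [h1, h2, w2]
  have hcond : ∀ i j, Cond (fun z : Ix n × I => γ i j z.1 z.2) := by
    intro i j
    refine ⟨?_, ?_, ?_⟩
    · intro a t
      show IsK (γ i j a t)
      rw [hγ]
      exact (hyK a i t).mul_right _
    · intro a
      show γ i j a 1 = γ i j (Ix.base (a.g.comp a.f) a.j) 1
      rw [hγ1, hγ1]
      rfl
    · intro a
      show γ i j a 0 = Phi _ (fun i' => γ i j (Ix.base a.f i') 1)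
      rw [hγ0]
      simp only [hγ1]
      by_cases h : i = 0 ∧ j = 0
      · simp only [h, and_self, if_true]
        rfl
      · simp only [h, if_false]
        rw [Phi_zero]
  let p : Matrix (Fin 2) (Fin 2) (AA n) :=
    Matrix.of fun i j => AA.mk' (γ i j) 1 (hγn i j) (hcond i j)
  have hp : ∀ a t, evA (a, t) p = Matrix.of fun i j =>
      yy (q a) (w a) i t * star (yy (q a) (w a) j t) := by
    intro a t
    apply Matrix.ext
    intro i j
    rfl
  refine ⟨2, p, ?_, ?_, ?_⟩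
  · apply evA_ext
    rintro ⟨a, t⟩
    rw [evA_mul, hp]
    apply Matrix.ext
    intro i j
    rw [Matrix.mul_apply]
    simp only [Matrix.of_apply]
    have h1 : ∀ d, yy (q a) (w a) i t * star (yy (q a) (w a) d t) *
        (yy (q a) (w a) d t * star (yy (q a) (w a) j t))
        = yy (q a) (w a) i t * (star (yy (q a) (w a) d t) * yy (q a) (w a) d t) *
          star (yy (q a) (w a) j t) := by
      intro d
      noncomm_ring
    rw [Finset.sum_congr rfl (fun d _ => h1 d), ← Finset.sum_mul, ← Finset.mul_sum,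
      yy_sum (q a) (w a) (hq1 a) (hq2 a) (w1 a) (w3 a) t t.2.1 t.2.2,
      yy_q (q a) (w a) (hq1 a) (w3 a)]
  · apply evA_ext
    rintro ⟨a, t⟩
    rw [evA_star, hp]
    apply Matrix.ext
    intro i j
    rw [Matrix.conjTranspose_apply]
    simp only [Matrix.of_apply]
    rw [star_mul, star_star]
  · funext j
    have hpp : p * p = p := by
      apply evA_ext
      rintro ⟨a, t⟩
      rw [evA_mul, hp]
      apply Matrix.ext
      intro i j
      rw [Matrix.mul_apply]
      simp only [Matrix.of_apply]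
      have h1 : ∀ d, yy (q a) (w a) i t * star (yy (q a) (w a) d t) *
          (yy (q a) (w a) d t * star (yy (q a) (w a) j t))
          = yy (q a) (w a) i t * (star (yy (q a) (w a) d t) * yy (q a) (w a) d t) *
            star (yy (q a) (w a) j t) := by
        intro d
        noncomm_ring
      rw [Finset.sum_congr rfl (fun d _ => h1 d), ← Finset.sum_mul, ← Finset.mul_sum,
        yy_sum (q a) (w a) (hq1 a) (hq2 a) (w1 a) (w3 a) t t.2.1 t.2.2,
        yy_q (q a) (w a) (hq1 a) (w3 a)]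
    have hps : p.conjTranspose = p := by
      apply evA_ext
      rintro ⟨a, t⟩
      rw [evA_star, hp]
      apply Matrix.ext
      intro i j
      rw [Matrix.conjTranspose_apply]
      simp only [Matrix.of_apply]
      rw [star_mul, star_star]
    set a : Ix n := Ix.base (AddMonoidHom.id (Fin n → ℕ)) j with ha
    have h1 : rk (evA (a, 1) p) = rk (M1 (Er (x j))) := by
      rw [rk_iff (evA_KProj _ hpp hps) (Er_KProj _)]
      have hE := KProj_M1 (Er_KProj (x j))
      let v : Matrix (Fin 1) (Fin 2) BB := Matrix.of fun _ d => if d = 0 then Er (x j) else 0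
      have hev : ∀ c d, evA (a, 1) p c d = if c = 0 ∧ d = 0 then Er (x j) else 0 := by
        intro c d
        exact hγ1 c d a
      refine ⟨v, ?_, ?_⟩
      · apply Matrix.ext
        intro c d
        rw [Matrix.mul_apply, hev]
        simp only [Finset.univ_unique, Finset.sum_singleton, Matrix.conjTranspose_apply, v,
          Matrix.of_apply]
        fin_cases c <;> fin_cases d <;> simp [hE.1, hE.2.1]
      · apply Matrix.ext
        intro c d
        rw [Matrix.mul_apply, Fin.sum_univ_two]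
        simp only [Matrix.conjTranspose_apply, v, Matrix.of_apply]
        simp [hE.1, hE.2.1, M1]
    show rk (evA (a, 1) p) = x j
    rw [h1, rk_Er]

end Pool.Agent.H494R3
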